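import Pool.Agent.Lib.P4a177w.Defs

/-!
# MODULE P4a177w.AlgW: the values of a symbol on the units of the curve

PROOF. (Model: `Lib/P4a177u/AlgB.lean`.) The good elements form a subgroup. (R1) `S.B (l i) (l k)` is good: for
`i ≠ k`, `d = a k - a i ≠ 0`, `l i - l k = d`, so `l i / d + (-(l k) / d) = 1` and `S.st` applies; the same for `m`.
(R2) `∑_i S.B (l i) (m j) = S.B (∏ l i) (m j)` is good, as `∏ l i = (cs t₀ * ∏ m k)⁻¹`; in the same way
`∑_j S.B (l i) (m j)`. With `T i j = S.B (l i) (m j)` and `n = (p + 1) (q + 1)`: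
`n • T i j = ∑_k ∑_r (T i j - T k j - T i r + T k r) + ...`, and the terms of this sum are combinations of
`D i j = S.B (l i / l 0) (m j / m 0)`. So `n • T i j` is good.
-/

set_option autoImplicit false

namespace P4a177w

open Polynomial P4a177h P4a177u

variable {R : Type} [CommRing R] [Algebra ℚ R] {p q : ℕ} {l : Fin (p + 1) → Rˣ}
  {m : Fin (q + 1) → Rˣ} {G : Type*} [AddCommGroup G] {S : Sy R G}

theorem good_zero : Good l m S 0 := by
  refine ⟨0, 1, 1, ?_⟩
  simp [S.one_left]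

theorem good_add {x y : G} (hx : Good l m S x) (hy : Good l m S y) : Good l m S (x + y) := by
  obtain ⟨n, c, d, rfl⟩ := hx
  obtain ⟨n', c', d', rfl⟩ := hy
  refine ⟨n + n', c * c', d * d', ?_⟩
  simp only [Pi.add_apply, Pi.mul_apply, add_smul, map_mul, S.mul_left, Finset.sum_add_distrib]
  abel

theorem good_neg {x : G} (hx : Good l m S x) : Good l m S (-x) := by
  obtain ⟨n, c, d, rfl⟩ := hx
  refine ⟨-n, c⁻¹, d⁻¹, ?_⟩
  simp only [Pi.neg_apply, Pi.inv_apply, neg_smul, map_inv, S.inv_left, Finset.sum_neg_distrib]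
  abel

namespace AlgWAux

/-- the good elements form a subgroup -/
def goodSub (l : Fin (p + 1) → Rˣ) (m : Fin (q + 1) → Rˣ) (S : Sy R G) : AddSubgroup G where
  carrier := {x | Good l m S x}
  zero_mem' := good_zero
  add_mem' := good_add
  neg_mem' := good_neg

lemma cst_l (c : ℚˣ) (i : Fin (p + 1)) : S.B (cs R c) (l i) ∈ goodSub l m S := by
  refine ⟨0, Pi.mulSingle i c, 1, ?_⟩
  have h1 : ∑ k, S.B (cs R ((Pi.mulSingle i c : Fin (p + 1) → ℚˣ) k)) (l k) = S.B (cs R c) (l i) := by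
    rw [Finset.sum_eq_single i]
    · rw [Pi.mulSingle_eq_same]
    · intro j _ hj
      rw [Pi.mulSingle_eq_of_ne hj, map_one, S.one_left]
    · intro h
      exact absurd (Finset.mem_univ i) h
  rw [h1]
  simp [S.one_left]

lemma cst_m (c : ℚˣ) (j : Fin (q + 1)) : S.B (cs R c) (m j) ∈ goodSub l m S := by
  refine ⟨0, 1, Pi.mulSingle j c, ?_⟩
  have h1 : ∑ k, S.B (cs R ((Pi.mulSingle j c : Fin (q + 1) → ℚˣ) k)) (m k) = S.B (cs R c) (m j) := by
    rw [Finset.sum_eq_single j]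
    · rw [Pi.mulSingle_eq_same]
    · intro k _ hk
      rw [Pi.mulSingle_eq_of_ne hk, map_one, S.one_left]
    · intro h
      exact absurd (Finset.mem_univ j) h
  rw [h1]
  simp [S.one_left]

lemma D_mem (i : Fin (p + 1)) (j : Fin (q + 1)) :
    S.B (l i / l 0) (m j / m 0) ∈ goodSub l m S := by
  refine Fin.cases ?_ (fun i => ?_) i
  · rw [div_self', S.one_left]
    exact zero_mem _
  · refine Fin.cases ?_ (fun j => ?_) j
    · rw [div_self', S.one_right]
      exact zero_mem _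
    · refine ⟨Pi.single i (Pi.single j 1), 1, 1, ?_⟩
      have h1 : ∑ i', ∑ j', (Pi.single i (Pi.single j (1 : ℤ)) : Fin p → Fin q → ℤ) i' j' •
          S.B (-(l i'.succ / l 0)) (-(m j'.succ / m 0)) = S.B (l i.succ / l 0) (m j.succ / m 0) := by
        rw [Finset.sum_eq_single i]
        · rw [Finset.sum_eq_single j]
          · rw [Pi.single_eq_same, Pi.single_eq_same, one_smul, S.neg_left, S.neg_right]
          · intro j' _ hj'
            rw [Pi.single_eq_same, Pi.single_eq_of_ne hj', zero_smul]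
          · intro h
            exact absurd (Finset.mem_univ j) h
        · intro i' _ hi'
          rw [Pi.single_eq_of_ne hi']
          simp
        · intro h
          exact absurd (Finset.mem_univ i) h
      rw [h1]
      simp [S.one_left]

/-- the symbols of two linear functions of the same variable -/
lemma rel1 {k : ℕ} {z : R} {f : Fin (k + 1) → Rˣ} {c : Fin (k + 1) → ℚ}
    (hc : Function.Injective c) (hf : ∀ i, (f i : R) = z - algebraMap ℚ R (c i))
    (H : AddSubgroup G) (hH : ∀ (t : ℚˣ) i, S.B (cs R t) (f i) ∈ H)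
    (hQ : ∀ c d : ℚˣ, S.B (cs R c) (cs R d) = 0) (i j : Fin (k + 1)) : S.B (f i) (f j) ∈ H := by
  rcases eq_or_ne i j with rfl | hij
  · rw [S.self]
    exact zero_mem _
  have hd : c j - c i ≠ 0 := by
    rw [sub_ne_zero]
    exact fun h => hij (hc h).symm
  set d : ℚˣ := Units.mk0 (c j - c i) hd with hdd
  have hv : ((cs R d : Rˣ) : R) = algebraMap ℚ R (c j) - algebraMap ℚ R (c i) := by
    show algebraMap ℚ R (c j - c i) = _
    rw [map_sub]
  have h1 : ((f i / cs R d : Rˣ) : R) + ((-(f j / cs R d) : Rˣ) : R) = 1 := by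
    rw [Units.val_neg, div_eq_mul_inv, div_eq_mul_inv, Units.val_mul, Units.val_mul, hf, hf]
    have h2 : ((cs R d : Rˣ) : R) * (((cs R d)⁻¹ : Rˣ) : R) = 1 := Units.mul_inv _
    rw [hv] at h2
    linear_combination h2
  have h3 := S.st _ _ h1
  rw [S.neg_right, S.div_left, S.div_right, S.div_right, hQ, sub_zero, S.anti (f i) (cs R d)] at h3
  have h4 : S.B (f i) (f j) = S.B (cs R d) (f j) - S.B (cs R d) (f i) := by
    have := sub_eq_zero.1 h3
    rw [sub_neg_eq_add] at this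
    exact eq_sub_of_add_eq this
  rw [h4]
  exact sub_mem (hH _ _) (hH _ _)

/-- left entries with good symbols -/
def HL (l : Fin (p + 1) → Rˣ) (m : Fin (q + 1) → Rˣ) (S : Sy R G) (y : Rˣ) : Subgroup Rˣ where
  carrier := {x | ((p + 1) * (q + 1)) • S.B x y ∈ goodSub l m S}
  one_mem' := by
    show ((p + 1) * (q + 1)) • S.B 1 y ∈ goodSub l m S
    rw [S.one_left, smul_zero]
    exact zero_mem _
  mul_mem' := by
    intro x x' hx hx'
    show ((p + 1) * (q + 1)) • S.B (x * x') y ∈ goodSub l m S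
    rw [S.mul_left, smul_add]
    exact add_mem hx hx'
  inv_mem' := by
    intro x hx
    show ((p + 1) * (q + 1)) • S.B x⁻¹ y ∈ goodSub l m S
    rw [S.inv_left, smul_neg]
    exact neg_mem hx

lemma mem_HL {x y : Rˣ} :
    x ∈ HL l m S y ↔ ((p + 1) * (q + 1)) • S.B x y ∈ goodSub l m S := Iff.rfl

lemma HL_symm {x y : Rˣ} (h : x ∈ HL l m S y) : y ∈ HL l m S x := by
  rw [mem_HL] at h ⊢
  rw [S.anti, smul_neg]
  exact neg_mem h

lemma mem_of_gen {y u : Rˣ} (h1 : ∀ c, cs R c ∈ HL l m S y)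
    (h2 : ∀ i, l i ∈ HL l m S y) (h3 : ∀ j, m j ∈ HL l m S y)
    (hu : ∃ (t : ℚˣ) (κ : Fin (p + 1) → ℤ) (κ' : Fin (q + 1) → ℤ),
      u = cs R t * (∏ i, l i ^ κ i) * ∏ j, m j ^ κ' j) : u ∈ HL l m S y := by
  obtain ⟨t, κ, κ', rfl⟩ := hu
  exact mul_mem (mul_mem (h1 t) (prod_mem fun i _ => zpow_mem (h2 i) _))
    (prod_mem fun j _ => zpow_mem (h3 j) _)

/-- the sums over the rows and columns are good -/
lemma sum_mem_l {t₀ : ℚˣ} (h0 : cs R t₀ * (∏ i, l i) * ∏ j, m j = 1)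
    (hmm : ∀ i j, S.B (m i) (m j) ∈ goodSub l m S) (j : Fin (q + 1)) :
    ∑ i, S.B (l i) (m j) ∈ goodSub l m S := by
  have h1 : S.B (cs R t₀ * (∏ i, l i) * ∏ j, m j) (m j) = 0 := by
    rw [h0, S.one_left]
  rw [S.mul_left, S.mul_left, S.prod_left, S.prod_left] at h1
  have h2 : ∑ i, S.B (l i) (m j) = -(S.B (cs R t₀) (m j)) - ∑ k, S.B (m k) (m j) := by
    rw [eq_sub_iff_add_eq, eq_neg_iff_add_eq_zero, ← h1]
    abel
  rw [h2]
  exact sub_mem (neg_mem (cst_m _ _)) (sum_mem fun k _ => hmm k j)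

lemma sum_mem_m {t₀ : ℚˣ} (h0 : cs R t₀ * (∏ i, l i) * ∏ j, m j = 1)
    (hll : ∀ i j, S.B (l i) (l j) ∈ goodSub l m S) (i : Fin (p + 1)) :
    ∑ j, S.B (l i) (m j) ∈ goodSub l m S := by
  have h1 : S.B (l i) (cs R t₀ * (∏ i, l i) * ∏ j, m j) = 0 := by
    rw [h0, S.one_right]
  rw [S.mul_right, S.mul_right, S.prod_right, S.prod_right, S.anti (l i) (cs R t₀)] at h1
  have h2 : ∑ j, S.B (l i) (m j) = S.B (cs R t₀) (l i) - ∑ k, S.B (l i) (l k) := by
    rw [eq_sub_iff_add_eq, ← sub_eq_zero, ← h1]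
    abel
  rw [h2]
  exact sub_mem (cst_l _ _) (sum_mem fun k _ => hll i k)

lemma diff_mem (i k : Fin (p + 1)) (j r : Fin (q + 1)) :
    S.B (l i) (m j) - S.B (l k) (m j) - (S.B (l i) (m r) - S.B (l k) (m r)) ∈ goodSub l m S := by
  have e : S.B (l i) (m j) - S.B (l k) (m j) - (S.B (l i) (m r) - S.B (l k) (m r)) =
      (S.B (l i / l 0) (m j / m 0) - S.B (l k / l 0) (m j / m 0)) -
        (S.B (l i / l 0) (m r / m 0) - S.B (l k / l 0) (m r / m 0)) := by
    simp only [S.div_left, S.div_right]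
    abel
  rw [e]
  exact sub_mem (sub_mem (D_mem _ _) (D_mem _ _)) (sub_mem (D_mem _ _) (D_mem _ _))

lemma T_mem {t₀ : ℚˣ} (h0 : cs R t₀ * (∏ i, l i) * ∏ j, m j = 1)
    (hll : ∀ i j, S.B (l i) (l j) ∈ goodSub l m S) (hmm : ∀ i j, S.B (m i) (m j) ∈ goodSub l m S)
    (i : Fin (p + 1)) (j : Fin (q + 1)) :
    ((p + 1) * (q + 1)) • S.B (l i) (m j) ∈ goodSub l m S := by
  have h : ((p + 1) * (q + 1)) • S.B (l i) (m j) =
      ∑ k : Fin (p + 1), ∑ r : Fin (q + 1),
        (S.B (l i) (m j) - S.B (l k) (m j) - (S.B (l i) (m r) - S.B (l k) (m r))) +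
      (q + 1) • ∑ k, S.B (l k) (m j) + (p + 1) • ∑ r, S.B (l i) (m r) -
      ∑ k : Fin (p + 1), ∑ r : Fin (q + 1), S.B (l k) (m r) := by
    simp only [Finset.sum_sub_distrib, Finset.sum_const, Finset.card_univ, Fintype.card_fin,
      ← Finset.smul_sum]
    rw [mul_smul]
    abel
  rw [h]
  refine sub_mem (add_mem (add_mem (sum_mem fun k _ => sum_mem fun r _ => diff_mem _ _ _ _)
    (nsmul_mem (sum_mem_l h0 hmm j) _)) (nsmul_mem (sum_mem_m h0 hll i) _))
    (sum_mem fun k _ => sum_mem_m h0 hll k)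

end AlgWAux

open AlgWAux

theorem good_pair {x y : R} {a : Fin (p + 1) → ℚ} {b : Fin (q + 1) → ℚ}
    (ha : Function.Injective a) (hb : Function.Injective b)
    (hl : ∀ i, (l i : R) = x - algebraMap ℚ R (a i))
    (hm : ∀ j, (m j : R) = y - algebraMap ℚ R (b j)) (t₀ : ℚˣ)
    (h0 : cs R t₀ * (∏ i, l i) * ∏ j, m j = 1)
    (hQ : ∀ c d : ℚˣ, S.B (cs R c) (cs R d) = 0) (u v : Rˣ)
    (hu : ∃ (t : ℚˣ) (κ : Fin (p + 1) → ℤ) (κ' : Fin (q + 1) → ℤ),
      u ^ ((p + 1) * (q + 1)) = cs R t * (∏ i, l i ^ κ i) * ∏ j, m j ^ κ' j)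
    (hv : ∃ (t : ℚˣ) (κ : Fin (p + 1) → ℤ) (κ' : Fin (q + 1) → ℤ),
      v ^ ((p + 1) * (q + 1)) = cs R t * (∏ i, l i ^ κ i) * ∏ j, m j ^ κ' j) :
    Good l m S ((((p + 1) * (q + 1)) ^ 3) • S.B u v) := by
  have hll : ∀ i j, S.B (l i) (l j) ∈ goodSub l m S := fun i j =>
    rel1 ha hl _ (fun t i => cst_l t i) hQ i j
  have hmm : ∀ i j, S.B (m i) (m j) ∈ goodSub l m S := fun i j =>
    rel1 hb hm _ (fun t i => cst_m t i) hQ i j
  have cc : ∀ c d : ℚˣ, cs R c ∈ HL l m S (cs R d) := fun c d => by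
    rw [mem_HL, hQ, smul_zero]
    exact zero_mem _
  have cL : ∀ (c : ℚˣ) (i : Fin (p + 1)), cs R c ∈ HL l m S (l i) := fun c i =>
    nsmul_mem (cst_l c i) _
  have cM : ∀ (c : ℚˣ) (j : Fin (q + 1)), cs R c ∈ HL l m S (m j) := fun c j =>
    nsmul_mem (cst_m c j) _
  have LL : ∀ i j, l i ∈ HL l m S (l j) := fun i j => nsmul_mem (hll i j) _
  have MM : ∀ i j, m i ∈ HL l m S (m j) := fun i j => nsmul_mem (hmm i j) _
  have LM : ∀ i j, l i ∈ HL l m S (m j) := fun i j => T_mem h0 hll hmm i j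
  set n := (p + 1) * (q + 1) with hn
  have uc : ∀ c : ℚˣ, u ^ n ∈ HL l m S (cs R c) := fun c =>
    mem_of_gen (fun d => cc d c) (fun i => HL_symm (cL c i)) (fun j => HL_symm (cM c j)) hu
  have uL : ∀ i, u ^ n ∈ HL l m S (l i) := fun i =>
    mem_of_gen (fun d => cL d i) (fun j => LL j i) (fun j => HL_symm (LM i j)) hu
  have uM : ∀ j, u ^ n ∈ HL l m S (m j) := fun j =>
    mem_of_gen (fun d => cM d j) (fun i => LM i j) (fun i => MM i j) hu
  have hvu : v ^ n ∈ HL l m S (u ^ n) :=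
    mem_of_gen (fun c => HL_symm (uc c)) (fun i => HL_symm (uL i)) (fun j => HL_symm (uM j)) hv
  have huv : n • S.B (u ^ n) (v ^ n) ∈ goodSub l m S := HL_symm hvu
  have e : (n ^ 3) • S.B u v = n • S.B (u ^ n) (v ^ n) := by
    rw [S.pow_left, S.pow_right, smul_smul, smul_smul]
    congr 1
    ring
  rw [e]
  exact huv

end P4a177w
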