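import Pool.Agent.Lib.P4a177u.Defs

/-!
# The symbol part of `K_2` of the curves `P(x) Q(y) = 1`: definitions
-/

set_option autoImplicit false

namespace P4a177w

open Polynomial P4a177h P4a177u

noncomputable section

/-- The ring `R` is the coordinate ring of the curve `P(x) Q(y) = 1` over `ℚ`: it is generated by `x`
and `y`, and it has the universal property for the points in fields. -/
structure Cur (R : Type) [CommRing R] [Algebra ℚ R] (x y : R) (P Q : ℚ[X]) : Prop where
  eqn : aeval x P * aeval y Q = 1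
  gen : ∀ S : Subalgebra ℚ R, x ∈ S → y ∈ S → ∀ r : R, r ∈ S
  univ : ∀ (L : Type) [Field L] (f : ℚ →+* L) (x' y' : L), eval₂ f x' P * eval₂ f y' Q = 1 →
    ∃ φ : R →+* L, φ x = x' ∧ φ y = y'

/-- `P = c ∏ (X - a_i)` with different `a_i` and `c ≠ 0`. -/
structure Rt (P : ℚ[X]) {p : ℕ} (a : Fin (p + 1) → ℚ) (c : ℚ) : Prop where
  c_ne : c ≠ 0
  inj : Function.Injective a
  eq : P = C c * ∏ i, (X - C (a i))

/-- A cusp with `x = a₀` and `y = ∞`, ramified of order `n` over the line with the coordinate `x`: the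
homomorphism of the coordinate ring into the Laurent series in `z = 1 / y`. -/
structure Cusp (R : Type) [CommRing R] (x y : R) (a₀ : ℚ) (n : ℕ) where
  /-- the homomorphism -/
  φ : R →+* LaurentSeries ℚ
  /-- the series of `x` -/
  F : PowerSeries ℚ
  /-- the series of `(x - a₀) / z ^ n` -/
  U : PowerSeries ℚ
  hy : φ y = HahnSeries.single (-1 : ℤ) 1
  hx : φ x = (F : LaurentSeries ℚ)
  hF : F = PowerSeries.C a₀ + PowerSeries.X ^ n * U
  hU : PowerSeries.constantCoeff U ≠ 0

/-- The valuation of the field of Laurent series. -/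
def vL : Valuation (LaurentSeries ℚ) (WithZero (Multiplicative ℤ)) := Valued.v

theorem Cur.symm {R : Type} [CommRing R] [Algebra ℚ R] {x y : R} {P Q : ℚ[X]}
    (h : Cur R x y P Q) : Cur R y x Q P where
  eqn := by rw [mul_comm]; exact h.eqn
  gen := fun S hy hx => h.gen S hx hy
  univ := fun L _ f y' x' he => by
    obtain ⟨φ, h1, h2⟩ := h.univ L f x' y' (by rw [mul_comm]; exact he)
    exact ⟨φ, h2, h1⟩

/-- The constants. -/
def cs (R : Type) [CommRing R] [Algebra ℚ R] : ℚˣ →* Rˣ :=
  Units.map (algebraMap ℚ R : ℚ →* R)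

/-- An element of `G` is an explicit combination of the symbols `{(x - a_i) / (x - a_0),
(y - b_j) / (y - b_0)}`, `{c, x - a_i}`, `{c, y - b_j}`, with constants `c`. -/
def Good {R : Type} [CommRing R] [Algebra ℚ R] {p q : ℕ} (l : Fin (p + 1) → Rˣ)
    (m : Fin (q + 1) → Rˣ) {G : Type*} [AddCommGroup G] (S : Sy R G) (x : G) : Prop :=
  ∃ (n : Fin p → Fin q → ℤ) (c : Fin (p + 1) → ℚˣ) (d : Fin (q + 1) → ℚˣ),
    x = ∑ i, ∑ j, n i j • S.B (-(l i.succ / l 0)) (-(m j.succ / m 0)) +
      ∑ i, S.B (cs R (c i)) (l i) + ∑ j, S.B (cs R (d j)) (m j)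

/-- The element `η` of the Milnor K-group of the `ℚ`-algebra `R` is unramified, up to torsion, at
every discrete valuation of the fraction field of `R` that is trivial on `ℚ`. -/
def UnramifiedOverQ {n : ℕ} {R : Type} [CommRing R] [Algebra ℚ R] (η : MilnorK n R) : Prop :=
  ∀ (K : Type) [Field K] [Algebra R K] [IsFractionRing R K]
    (v : Valuation K (WithZero (Multiplicative ℤ))),
    (∀ c : ℚˣ, v (algebraMap R K (algebraMap ℚ R c)) = 1) →
      Unramified v (map (algebraMap R K) η)

end

end P4a177w
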