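import Pool.Agent.Lib.P4a177w.OrdW

/-!
# A normal form of high order at a cusp

PROOFS. `v k` := value of `D.φ (aeval x (G k) * y ^ k)`. If `G k ≠ 0` write `G k = (X - C a₀) ^ m_k * H`, `H.eval a₀ ≠ 0`
(`Polynomial.exists_eq_pow_rootMultiplicity_mul_and_not_dvd`, `dvd_iff_isRoot`); by `Cusp.v_aeval` and `Cusp.v_y`
`v k = exp (-((q + 1) m_k) + k)`. These exponents are different for different `k ≤ q` (they are congruent to `k` modulo `q + 1`), so
the value of the sum is the maximum of the `v k` (`Valuation.map_sum_eq_of_lt` or similar; otherwise by induction over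
finite sets with `Valuation.map_add_of_distinct_val`/`map_add_eq_of_lt_left`); in particular
`exp (-((q + 1) m_k) + k) ≤ exp (-((q + 1) M))`, so `(q + 1) (m_k - M) ≥ k`, hence `m_k ≥ M`, and `m_k ≥ M + 1` if `k ≥ 1`.
`normal_zero`: by `cusp_dvd` all the powers of `X - C a₀` divide `G k` (the value of `0` is `0`), so `G k = 0`
(degree).
-/

set_option autoImplicit false

namespace P4a177w

open Polynomial P4a177h P4a177u WithZero

variable {R : Type} [CommRing R] [Algebra ℚ R] {x y : R} {a₀ : ℚ} {q : ℕ}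

namespace DvdWAux

/-- The value of a sum whose nonzero terms have different values bounds the values of the terms. -/
theorem le_sum {K : Type*} [Field K] (v : Valuation K (WithZero (Multiplicative ℤ))) {n : ℕ}
    (f : Fin n → K) (h : ∀ i j, i ≠ j → v (f i) ≠ 0 → v (f i) ≠ v (f j)) (k : Fin n) :
    v (f k) ≤ v (∑ i, f i) := by
  classical
  obtain ⟨i₀, -, hmax⟩ := Finset.exists_max_image Finset.univ (fun i => v (f i))
    ⟨k, Finset.mem_univ k⟩
  refine (hmax k (Finset.mem_univ k)).trans ?_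
  by_cases h0 : v (f i₀) = 0
  · rw [h0]
    exact zero_le
  · refine le_of_eq (v.map_sum_eq_of_lt (Finset.mem_univ i₀) ?_).symm
    intro i hi
    have hi' : i ≠ i₀ := by
      intro h1
      rw [h1] at hi
      simp at hi
    exact lt_of_le_of_ne (hmax i (Finset.mem_univ i)) fun h1 => h i₀ i hi'.symm h0 h1.symm

variable {R : Type} [CommRing R] [Algebra ℚ R] {x y : R} {a₀ : ℚ} {q : ℕ}

/-- The value of a term. -/
theorem term (D : Cusp R x y a₀ (q + 1)) (G : ℚ[X]) (hG : G ≠ 0) (k : ℕ) :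
    ∃ (m : ℕ) (H : ℚ[X]), G = (X - C a₀) ^ m * H ∧
      vL (D.φ (aeval x G * y ^ k)) = exp (-(((q + 1) * m : ℕ) : ℤ) + (k : ℤ)) := by
  obtain ⟨H, hH, hH'⟩ := Polynomial.exists_eq_pow_rootMultiplicity_mul_and_not_dvd G hG a₀
  refine ⟨_, H, hH, ?_⟩
  have hH0 : H.eval a₀ ≠ 0 := by
    intro h0
    exact hH' (Polynomial.dvd_iff_isRoot.2 h0)
  have h1 := D.v_aeval (Nat.succ_pos q) (G.rootMultiplicity a₀) H hH0
  rw [← hH] at h1
  rw [map_mul, map_pow, map_mul, map_pow, h1, D.v_y, exp_add, ← exp_nsmul, nsmul_eq_mul, mul_one]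

end DvdWAux

theorem cusp_dvd (D : Cusp R x y a₀ (q + 1)) (G : Fin (q + 1) → ℚ[X]) (M : ℕ)
    (h : vL (D.φ (∑ k, aeval x (G k) * y ^ (k : ℕ))) ≤ exp (-(((q + 1) * M : ℕ) : ℤ)))
    (k : Fin (q + 1)) :
    (X - C a₀) ^ M ∣ G k ∧ (k ≠ 0 → (X - C a₀) ^ (M + 1) ∣ G k) := by
  by_cases hG : G k = 0
  · rw [hG]
    exact ⟨dvd_zero _, fun _ => dvd_zero _⟩
  obtain ⟨m, H, hH, hv⟩ := DvdWAux.term D (G k) hG k
  rw [map_sum] at h
  have h1 := DvdWAux.le_sum vL (fun k : Fin (q + 1) => D.φ (aeval x (G k) * y ^ (k : ℕ))) ?_ k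
  · have h2 : exp (-(((q + 1) * m : ℕ) : ℤ) + ((k : ℕ) : ℤ)) ≤ exp (-(((q + 1) * M : ℕ) : ℤ)) := by
      rw [← hv]
      exact h1.trans h
    rw [exp_le_exp] at h2
    have h3 : (q + 1) * M + (k : ℕ) ≤ (q + 1) * m := by
      have h4 : (((q + 1) * M + (k : ℕ) : ℕ) : ℤ) ≤ (((q + 1) * m : ℕ) : ℤ) := by
        push_cast at h2 ⊢
        linarith
      exact_mod_cast h4
    rw [hH]
    constructor
    · have h4 : M ≤ m := by
        have : (q + 1) * M ≤ (q + 1) * m := by omega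
        exact Nat.le_of_mul_le_mul_left this (Nat.succ_pos q)
      exact Dvd.dvd.mul_right (pow_dvd_pow _ h4) _
    · intro hk
      have hk0 : 0 < (k : ℕ) := Nat.pos_of_ne_zero fun h5 => hk (Fin.ext h5)
      have h4 : M < m := by
        have : (q + 1) * M < (q + 1) * m := by omega
        exact Nat.lt_of_mul_lt_mul_left this
      exact Dvd.dvd.mul_right (pow_dvd_pow _ h4) _
  · intro i j hij hi0 hEq
    change vL (D.φ (aeval x (G i) * y ^ (i : ℕ))) ≠ 0 at hi0
    change vL (D.φ (aeval x (G i) * y ^ (i : ℕ))) = vL (D.φ (aeval x (G j) * y ^ (j : ℕ))) at hEq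
    have hGi : G i ≠ 0 := by
      intro h0
      apply hi0
      rw [h0, map_zero, zero_mul, map_zero, map_zero]
    have hGj : G j ≠ 0 := by
      intro h0
      apply hi0
      rw [hEq, h0, map_zero, zero_mul, map_zero, map_zero]
    obtain ⟨mi, Hi, -, hvi⟩ := DvdWAux.term D (G i) hGi i
    obtain ⟨mj, Hj, -, hvj⟩ := DvdWAux.term D (G j) hGj j
    rw [hvi, hvj, exp_inj] at hEq
    apply hij
    apply Fin.ext
    have h5 : (q + 1) * mj + (i : ℕ) = (q + 1) * mi + (j : ℕ) := by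
      have h6 : (((q + 1) * mj + (i : ℕ) : ℕ) : ℤ) = (((q + 1) * mi + (j : ℕ) : ℕ) : ℤ) := by
        push_cast at hEq ⊢
        linarith
      exact_mod_cast h6
    have h7 := congrArg (fun t => t % (q + 1)) h5
    simp only [Nat.mul_add_mod, Nat.mod_eq_of_lt i.2, Nat.mod_eq_of_lt j.2] at h7
    exact h7

theorem normal_zero (D : Cusp R x y a₀ (q + 1)) (G : Fin (q + 1) → ℚ[X])
    (h : D.φ (∑ k, aeval x (G k) * y ^ (k : ℕ)) = 0) (k : Fin (q + 1)) : G k = 0 := by
  by_contra hG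
  have h1 := (cusp_dvd D G ((G k).natDegree + 1) (by rw [h, map_zero]; exact zero_le) k).1
  have h2 := Polynomial.natDegree_le_of_dvd h1 hG
  rw [Polynomial.natDegree_pow, Polynomial.natDegree_X_sub_C, mul_one] at h2
  omega

end P4a177w
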