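import Pool.Agent.Lib.P4a177w.Defs
import Pool.Agent.Lib.P4a177e.Stmt

/-!
# The coordinate ring of the family for `d = 0` is the ring of a curve `P(x) Q(y) = 1`
-/

set_option autoImplicit false

namespace P4a177w

open Polynomial P4a177h P4a177u P4a177e

noncomputable section

variable (A : Fam 0) (N : ℕ)

/-- The coordinate functions. -/
def vx (s : Fin 2) : A.CoordRing N := Ideal.Quotient.mk _ (MvPolynomial.X s)

/-- The polynomial in `x`. -/
def PW : ℚ[X] := C (N : ℚ) * ∏ i, (X - C (A.a 0 i : ℚ))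

/-- The polynomial in `y`. -/
def QW : ℚ[X] := C (1 : ℚ) * ∏ j, (X - C (A.a 1 j : ℚ))

namespace FamWAux

theorem eqn_vx : (N : A.CoordRing N) *
    ((∏ i, (vx A N 0 - algebraMap ℚ (A.CoordRing N) (A.a 0 i : ℚ))) *
      ∏ j, (vx A N 1 - algebraMap ℚ (A.CoordRing N) (A.a 1 j : ℚ))) = 1 := by
  have h : (Ideal.Quotient.mk (Ideal.span {A.eqn N}) (A.eqn N)) = 0 :=
    Ideal.Quotient.eq_zero_iff_mem.2 (Ideal.subset_span (Set.mem_singleton _))
  have h2 : A.eqn N = (N : MvPolynomial (Fin 2) ℚ) *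
      ((∏ i, (MvPolynomial.X 0 - MvPolynomial.C (A.a 0 i : ℚ))) *
        ∏ j, (MvPolynomial.X 1 - MvPolynomial.C (A.a 1 j : ℚ))) - 1 := by
    unfold Fam.eqn
    rw [Fin.prod_univ_two]
  have h3 : Ideal.Quotient.mk (Ideal.span {A.eqn N}) ((N : MvPolynomial (Fin 2) ℚ) *
      ((∏ i, (MvPolynomial.X 0 - MvPolynomial.C (A.a 0 i : ℚ))) *
        ∏ j, (MvPolynomial.X 1 - MvPolynomial.C (A.a 1 j : ℚ))) - 1) = 0 := by
    rw [← h2]
    exact h
  rw [map_sub, map_one, map_mul, map_mul, map_natCast, map_prod, map_prod, sub_eq_zero] at h3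
  simp only [map_sub] at h3
  exact h3

end FamWAux

open FamWAux

theorem cur : Cur (A.CoordRing N) (vx A N 0) (vx A N 1) (PW A N) (QW A) where
  eqn := by
    unfold PW QW
    rw [map_mul, map_mul, aeval_C, aeval_C, map_one, one_mul, map_natCast, map_prod, map_prod,
      mul_assoc]
    simp only [map_sub, aeval_X, aeval_C]
    exact eqn_vx A N
  gen := by
    intro S hx hy r
    obtain ⟨f, rfl⟩ := Ideal.Quotient.mk_surjective r
    induction f using MvPolynomial.induction_on with
    | C a => exact S.algebraMap_mem a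
    | add p q hp hq =>
      rw [map_add]
      exact S.add_mem hp hq
    | mul_X p s hp =>
      rw [map_mul]
      refine S.mul_mem hp ?_
      fin_cases s
      · exact hx
      · exact hy
  univ := by
    intro L _ f x' y' he
    refine ⟨Ideal.Quotient.lift _ (MvPolynomial.eval₂Hom f ![x', y']) ?_, ?_, ?_⟩
    · intro r hr
      rw [Ideal.mem_span_singleton] at hr
      obtain ⟨r', rfl⟩ := hr
      have h0 : MvPolynomial.eval₂Hom f ![x', y'] (A.eqn N) = 0 := by
        unfold Fam.eqn
        rw [Fin.prod_univ_two, map_sub, map_one, map_mul, map_mul, map_natCast, map_prod, map_prod,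
          sub_eq_zero]
        unfold PW QW at he
        rw [eval₂_mul, eval₂_mul, eval₂_C, eval₂_C, map_one, one_mul, map_natCast,
          eval₂_finsetProd, eval₂_finsetProd, mul_assoc] at he
        simp only [eval₂_sub, eval₂_X, eval₂_C] at he
        simp only [map_sub, MvPolynomial.eval₂Hom_X', MvPolynomial.eval₂Hom_C]
        exact he
      rw [map_mul, h0, zero_mul]
    · show MvPolynomial.eval₂Hom f ![x', y'] (MvPolynomial.X 0) = x'
      rw [MvPolynomial.eval₂Hom_X']
      rfl
    · show MvPolynomial.eval₂Hom f ![x', y'] (MvPolynomial.X 1) = y'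
      rw [MvPolynomial.eval₂Hom_X']
      rfl

theorem rt0 (hN : 1 ≤ N) : Rt (PW A N) (fun i => (A.a 0 i : ℚ)) (N : ℚ) where
  c_ne := by
    have : N ≠ 0 := by omega
    exact_mod_cast this
  inj := Int.cast_injective.comp (A.inj 0)
  eq := rfl

theorem rt1 : Rt (QW A) (fun j => (A.a 1 j : ℚ)) (1 : ℚ) where
  c_ne := one_ne_zero
  inj := Int.cast_injective.comp (A.inj 1)
  eq := rfl

theorem linU_val (s : Fin 2) (i : Fin (A.m s + 1)) :
    (A.linU N s i : A.CoordRing N) = vx A N s - algebraMap ℚ (A.CoordRing N) (A.a s i : ℚ) := by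
  rw [A.linU_val]
  rfl

theorem eqn_units (hN : (N : ℚ) ≠ 0) :
    cs (A.CoordRing N) (Units.mk0 (N : ℚ) hN) * (∏ i, A.linU N 0 i) * ∏ j, A.linU N 1 j = 1 := by
  apply Units.ext
  rw [Units.val_mul, Units.val_mul, Units.coe_prod, Units.coe_prod, Units.val_one]
  have h1 : (cs (A.CoordRing N) (Units.mk0 (N : ℚ) hN) : A.CoordRing N) = (N : A.CoordRing N) := by
    show algebraMap ℚ (A.CoordRing N) (N : ℚ) = _
    rw [map_natCast]
  rw [h1, Finset.prod_congr rfl fun i _ => linU_val A N 0 i,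
    Finset.prod_congr rfl fun i _ => linU_val A N 1 i, mul_assoc]
  exact eqn_vx A N

end

end P4a177w
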