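import Pool.Agent.Lib.P4a177w.NormalW
import Pool.Agent.Lib.P4a177w.DvdW

/-!
# Functions without poles at the cusps over the roots of `P`; injectivity

A function `r` satisfies `r * P(x) ^ M = ∑ G_k(x) y ^ k`. If it has no pole at the cusps over the
roots of `P`, all the `G_k` are divisible by `P ^ M`, and by `P ^ (M + 1)` for `k ≠ 0`.
-/

set_option autoImplicit false

namespace P4a177w

open Polynomial P4a177h P4a177u WithZero

variable {R : Type} [CommRing R] [Algebra ℚ R] {x y : R} {P Q : ℚ[X]} {p q : ℕ}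
  {a : Fin (p + 1) → ℚ} {b : Fin (q + 1) → ℚ} {c e : ℚ}

namespace RegWAux

theorem ne_zero (hP : Rt P a c) : P ≠ 0 := by
  rw [hP.eq]
  exact mul_ne_zero (C_ne_zero.2 hP.c_ne) (Finset.prod_ne_zero_iff.2 fun i _ => X_sub_C_ne_zero _)

/-- the value of `P(x)` at the cusp over `a i` -/
theorem v_P (hP : Rt P a c) (i : Fin (p + 1)) (D : Cusp R x y (a i) (q + 1)) :
    vL (D.φ (aeval x P)) = exp (-((q + 1 : ℕ) : ℤ)) := by
  classical
  have h1 : P = (X - C (a i)) ^ 1 * (C c * ∏ j ∈ Finset.univ.erase i, (X - C (a j))) := by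
    rw [hP.eq, pow_one, ← Finset.mul_prod_erase Finset.univ (fun j => X - C (a j))
      (Finset.mem_univ i)]
    ring
  have h2 : (C c * ∏ j ∈ Finset.univ.erase i, (X - C (a j))).eval (a i) ≠ 0 := by
    rw [eval_mul, eval_C, eval_prod]
    refine mul_ne_zero hP.c_ne (Finset.prod_ne_zero_iff.2 fun j hj => ?_)
    rw [eval_sub, eval_X, eval_C]
    exact sub_ne_zero.2 fun h => Finset.ne_of_mem_erase hj (hP.inj h.symm)
  have h3 := D.v_aeval (Nat.succ_pos q) 1 _ h2
  rw [← h1, mul_one] at h3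
  exact h3

theorem pow_dvd (hP : Rt P a c) {G : ℚ[X]} {M : ℕ} (h : ∀ i, (X - C (a i)) ^ M ∣ G) :
    P ^ M ∣ G := by
  have h1 : ∏ i, (X - C (a i)) ^ M ∣ G := by
    refine Finset.prod_dvd_of_coprime (fun i _ j _ hij => ?_) fun i _ => h i
    exact (pairwise_coprime_X_sub_C hP.inj hij).pow
  rw [hP.eq, mul_pow, ← Finset.prod_pow]
  exact ((isUnit_C.2 (isUnit_iff_ne_zero.2 hP.c_ne)).pow M).mul_left_dvd.2 h1

theorem isUnit_P (h : Cur R x y P Q) : IsUnit (aeval x P) := IsUnit.of_mul_eq_one _ h.eqn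

end RegWAux

open RegWAux

theorem regular (h : Cur R x y P Q) (hP : Rt P a c) (hQ : Rt Q b e)
    (D : ∀ i, Cusp R x y (a i) (q + 1)) (r : R) (hr : ∀ i, vL ((D i).φ r) ≤ 1) :
    ∃ G : Fin (q + 1) → ℚ[X], r = ∑ k, aeval x (G k) * y ^ (k : ℕ) ∧ ∀ k, k ≠ 0 → P ∣ G k := by
  obtain ⟨M, G, hG⟩ := normal_form h hQ r
  have hv : ∀ i, vL ((D i).φ (∑ k, aeval x (G k) * y ^ (k : ℕ))) ≤
      exp (-(((q + 1) * M : ℕ) : ℤ)) := by
    intro i
    rw [← hG, map_mul, map_mul, map_pow, map_pow, v_P hP i (D i), ← exp_nsmul]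
    have h1 : M • -((q + 1 : ℕ) : ℤ) = -(((q + 1) * M : ℕ) : ℤ) := by
      rw [nsmul_eq_mul]
      push_cast
      ring
    rw [h1]
    exact mul_le_of_le_one_left' (hr i)
  have hd := fun i => cusp_dvd (D i) G M (hv i)
  have h1 : ∀ k, P ^ M ∣ G k := fun k => pow_dvd hP fun i => (hd i k).1
  have h2 : ∀ k, k ≠ 0 → P ^ (M + 1) ∣ G k := fun k hk => pow_dvd hP fun i => (hd i k).2 hk
  choose H hH using h1
  refine ⟨H, ?_, fun k hk => ?_⟩
  · have h3 : r * aeval x P ^ M = (∑ k, aeval x (H k) * y ^ (k : ℕ)) * aeval x P ^ M := by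
      rw [hG, Finset.sum_mul]
      refine Finset.sum_congr rfl fun k _ => ?_
      rw [hH k, map_mul, map_pow]
      ring
    exact ((isUnit_P h).pow M).mul_right_cancel h3
  · have h3 := h2 k hk
    rw [hH k, pow_succ] at h3
    exact (mul_dvd_mul_iff_left (pow_ne_zero M (ne_zero hP))).1 h3

theorem injective (h : Cur R x y P Q) (hQ : Rt Q b e) {a₀ : ℚ} (D : Cusp R x y a₀ (q + 1)) :
    Function.Injective D.φ := by
  rw [injective_iff_map_eq_zero]
  intro r hr
  obtain ⟨M, G, hG⟩ := normal_form h hQ r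
  have h1 : D.φ (∑ k, aeval x (G k) * y ^ (k : ℕ)) = 0 := by
    rw [← hG, map_mul, hr, zero_mul]
  have h2 : r * aeval x P ^ M = 0 * aeval x P ^ M := by
    rw [hG, zero_mul]
    refine Finset.sum_eq_zero fun k _ => ?_
    rw [normal_zero D G h1 k, map_zero, zero_mul]
  exact ((isUnit_P h).pow M).mul_right_cancel h2

theorem isDomain (h : Cur R x y P Q) (hQ : Rt Q b e) {a₀ : ℚ} (D : Cusp R x y a₀ (q + 1)) :
    IsDomain R :=
  (injective h hQ D).isDomain D.φ

end P4a177w
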