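import Pool.Agent.Lib.P4a177w.Defs
import Pool.Agent.Lib.P4a177u.TameU

/-!
# MODULE P4a177w.TmW: the tame symbol of a sum of symbols with constant first entries

PROOF. (Model: `tm_const` in `Lib/P4a177u/TameU.lean`.) `w i := Units.map φ (c i)` has value `1`, so
`tm v (symb ![w i, l i]) = ordv v (l i) • ofMul (resUnit v (w i))` (`P4a177b.tameFun_unit_left`)
`= ofMul (resUnit v (Units.map φ (c i ^ ordv v (l i))))` (`resUnit_zpow`, `resUnit_congr`), and the sum is
`ofMul (resUnit v (Units.map φ (∏ c i ^ ordv v (l i))))` (`resUnit_mul`; induction over the finite set). If the sum has finite order then, as in the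
proof of `tm_const` (`lt_one_of_resUnit`), a positive power of the rational number `C = ∏ c i ^ ordv v (l i)` is `1`, so
`C = 1 ∨ C = -1`. (Shorter: choose nothing new, but apply `tm_const` itself to the symbol `symb ![Units.map φ C, t]` for any `t` with
`ordv v t ≠ 0`, if there is such a `t`: its tame symbol is `ordv v t •` the sum; if all the `ordv v (l i)` are `0` then `C = 1` trivially,
otherwise take `t = l i`.)
-/

set_option autoImplicit false

namespace P4a177w

open P4a177h P4a177u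

namespace TmWAux

variable {K : Type*} [Field K] (v : Valuation K (WithZero (Multiplicative ℤ)))
  (φ : ℚ →+* K) (hφ : ∀ c : ℚˣ, v (φ (c : ℚ)) = 1)

include hφ in
theorem ord0 (c : ℚˣ) : P4a177b.ordv v (Units.map (φ : ℚ →* K) c) = 0 := by
  rw [P4a177b.ordv_eq_zero_iff]
  exact hφ c

/-- the residue classes of the constants -/
noncomputable def resQ : ℚˣ →* (IsLocalRing.ResidueField v.valuationSubring)ˣ :=
  MonoidHom.mk' (fun c => P4a177b.resUnit v (Units.map (φ : ℚ →* K) c) (ord0 v φ hφ c))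
    fun a b => by
      have h0 : P4a177b.ordv v (Units.map (φ : ℚ →* K) a * Units.map (φ : ℚ →* K) b) = 0 := by
        rw [P4a177b.ordv_mul, ord0 v φ hφ, ord0 v φ hφ, add_zero]
      rw [P4a177b.resUnit_congr v (map_mul (Units.map (φ : ℚ →* K)) a b) (ord0 v φ hφ _) h0,
        P4a177b.resUnit_mul v _ _ (ord0 v φ hφ a) (ord0 v φ hφ b)]

theorem tm_resQ (c : ℚˣ) (l : Kˣ) : tm v (symb ![Units.map (φ : ℚ →* K) c, l]) =
    P4a177b.ordv v l • Additive.ofMul (resQ v φ hφ c) := by
  rw [tm_symb]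
  exact P4a177b.tameFun_unit_left v _ _ (ord0 v φ hφ c)

end TmWAux

theorem tm_sum {K : Type*} [Field K] (v : Valuation K (WithZero (Multiplicative ℤ)))
    (φ : ℚ →+* K) (hφ : ∀ c : ℚˣ, v (φ (c : ℚ)) = 1) {ι : Type*} (s : Finset ι) (c : ι → ℚˣ)
    (l : ι → Kˣ)
    (h : IsOfFinAddOrder (∑ i ∈ s, tm v (symb ![Units.map (φ : ℚ →* K) (c i), l i]))) :
    (∏ i ∈ s, c i ^ (P4a177b.ordv v (l i)) = 1) ∨ ∏ i ∈ s, c i ^ (P4a177b.ordv v (l i)) = -1 := by
  have e : ∑ i ∈ s, tm v (symb ![Units.map (φ : ℚ →* K) (c i), l i]) =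
      Additive.ofMul (TmWAux.resQ v φ hφ (∏ i ∈ s, c i ^ (P4a177b.ordv v (l i)))) := by
    rw [map_prod, ofMul_prod]
    refine Finset.sum_congr rfl fun i _ => ?_
    rw [TmWAux.tm_resQ v φ hφ, map_zpow, ofMul_zpow]
  by_cases hall : ∀ i ∈ s, P4a177b.ordv v (l i) = 0
  · left
    refine Finset.prod_eq_one fun i hi => ?_
    rw [hall i hi, zpow_zero]
  · push Not at hall
    obtain ⟨i, -, hi⟩ := hall
    rw [e, isOfFinAddOrder_iff_nsmul_eq_zero] at h
    obtain ⟨n, hn, h⟩ := h
    refine tm_const v φ hφ _ (l i) (fun h1 => hi ((P4a177b.ordv_eq_zero_iff v (l i)).2 h1)) ?_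
    rw [TmWAux.tm_resQ v φ hφ, isOfFinAddOrder_iff_nsmul_eq_zero]
    exact ⟨n, hn, by rw [← natCast_zsmul, smul_comm, natCast_zsmul, h, smul_zero]⟩

end P4a177w
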