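import Pool.Agent.Lib.P4a177w.CuspW
import Pool.Agent.Lib.P4a177w.RegW
import Pool.Agent.Lib.P4a177w.TmW

/-!
# MODULE P4a177w.KillW: the tame symbols at the cusps determine the constants

PROOFS. `kill_A`: let `D` be a cusp at `a i` (`exists_cusp h hP hQ i`), `D.φ` is injective (`injective h hQ D`), so it extends to a
homomorphism `ψ : K →+* LaurentSeries ℚ` (`IsFractionRing.lift`, `IsFractionRing.lift_algebraMap`); let `v = vL.comap ψ`. It is trivial on the constants
(`Cusp.v_const`), so `hv v` applies. The tame symbol of the sum is the sum of the `tm v (symb ![φ c, l])` (`map_add`, `map_sum`,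
`P4a177h.map_symb`, see `P4a177u.KillAux.map_pair` in `Lib/P4a177u/Kill.lean`), `tm_sum` (with the index type
`Fin (p + 1) ⊕ Fin (q + 1)`, `Fintype.sum_sum_type`, `Fintype.prod_sum_type`) gives
`∏ c k ^ ordv v (l k) * ∏ d j ^ ordv v (m j) = ± 1`, where `ordv v (l i) = q + 1`, `ordv v (l k) = 0` for `k ≠ i`
(`hP.inj`), `ordv v (m j) = -1` (`Cusp.v_x_sub`, `Cusp.v_x_sub_ne`, `Cusp.v_y_sub`; `P4a177b.ordv v a = -log (v a)`, `WithZero.log_exp`). So
`c i ^ (q + 1) = ± ∏ d j`. `kill`: apply `kill_A` also to the curve with `x` and `y` exchanged (`h.symm`; exchange the two sums with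
`add_comm`), so `d j ^ (p + 1) = ± ∏ c i`. Take absolute values in `ℚ`: `|c i| ^ (q + 1) = ∏ |d j|` for all `i`, so all `|c i|` are equal to
some `γ > 0` (`pow_left_injective` for positive numbers), in the same way all `|d j|` are equal to some `δ > 0`, and `γ ^ (q + 1) = δ ^ (q + 1)`, so
`γ = δ`. `t := Units.mk0 γ`; `c i = t ∨ c i = -t` by `abs_eq`/`abs_eq_abs`, `Units.ext`.
-/

set_option autoImplicit false

namespace P4a177w

open Polynomial P4a177h P4a177u WithZero

variable {R : Type} [CommRing R] [Algebra ℚ R] {x y : R} {P Q : ℚ[X]} {p q : ℕ}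
  {a : Fin (p + 1) → ℚ} {b : Fin (q + 1) → ℚ} {c₀ e : ℚ}

namespace KillWAux

theorem ordv_of {K : Type*} [Field K] (v : Valuation K (WithZero (Multiplicative ℤ))) (u : Kˣ)
    {n : ℤ} (h : v (u : K) = exp (-n)) : P4a177b.ordv v u = n := by
  unfold P4a177b.ordv
  rw [h, log_exp, neg_neg]

theorem ordv_one {K : Type*} [Field K] (v : Valuation K (WithZero (Multiplicative ℤ))) (u : Kˣ)
    (h : v (u : K) = 1) : P4a177b.ordv v u = 0 :=
  (P4a177b.ordv_eq_zero_iff v u).2 h

theorem map_pair {R S : Type*} [CommRing R] [CommRing S] (ψ : R →+* S) (a u : Rˣ) :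
    map ψ (symb ![a, u]) = symb ![Units.map (ψ : R →* S) a, Units.map (ψ : R →* S) u] := by
  rw [map_symb]
  congr 1
  funext i
  fin_cases i <;> rfl

theorem eq_of_mul_inv {A B : ℚˣ} (h : A * B⁻¹ = 1 ∨ A * B⁻¹ = -1) : A = B ∨ A = -B := by
  rcases h with h | h
  · left
    exact mul_inv_eq_one.1 h
  · right
    rw [mul_inv_eq_iff_eq_mul, neg_one_mul] at h
    exact h

end KillWAux

open KillWAux

theorem kill_A (h : Cur R x y P Q) (hP : Rt P a c₀) (hQ : Rt Q b e) (l : Fin (p + 1) → Rˣ)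
    (hl : ∀ i, (l i : R) = x - algebraMap ℚ R (a i)) (m : Fin (q + 1) → Rˣ)
    (hm : ∀ j, (m j : R) = y - algebraMap ℚ R (b j)) (K : Type) [Field K] [Algebra R K]
    [IsFractionRing R K] (c : Fin (p + 1) → ℚˣ) (d : Fin (q + 1) → ℚˣ)
    (hv : ∀ v : Valuation K (WithZero (Multiplicative ℤ)),
      (∀ t : ℚˣ, v (algebraMap R K (algebraMap ℚ R t)) = 1) →
      IsOfFinAddOrder (tm v (map (algebraMap R K)
        (∑ i, symb ![cs R (c i), l i] + ∑ j, symb ![cs R (d j), m j]))))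
    (i : Fin (p + 1)) : c i ^ (q + 1) = ∏ j, d j ∨ c i ^ (q + 1) = -∏ j, d j := by
  classical
  obtain ⟨D⟩ := exists_cusp h hP hQ i
  have hinj := injective h hQ D
  have := isDomain h hQ D
  obtain ⟨ψ, hψ⟩ : ∃ ψ : K →+* LaurentSeries ℚ, ∀ r : R, ψ (algebraMap R K r) = D.φ r :=
    ⟨IsFractionRing.lift hinj, fun r => IsFractionRing.lift_algebraMap hinj r⟩
  obtain ⟨v, hvd⟩ : ∃ v : Valuation K (WithZero (Multiplicative ℤ)),
      ∀ r : R, v (algebraMap R K r) = vL (D.φ r) :=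
    ⟨vL.comap ψ, fun r => by rw [Valuation.comap_apply, hψ]⟩
  have hc1 : ∀ t : ℚˣ, v (algebraMap R K (algebraMap ℚ R t)) = 1 := fun t => by
    rw [hvd, D.v_const (t : ℚ) t.ne_zero]
  have h1 := hv v hc1
  set φ : ℚ →+* K := (algebraMap R K).comp (algebraMap ℚ R) with hφ
  have hcst : ∀ t : ℚˣ, Units.map (algebraMap R K : R →* K) (cs R t) =
      Units.map (φ : ℚ →* K) t := fun t => Units.ext rfl
  set L : Fin (p + 1) → Kˣ := fun i => Units.map (algebraMap R K : R →* K) (l i) with hL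
  set M : Fin (q + 1) → Kˣ := fun j => Units.map (algebraMap R K : R →* K) (m j) with hM
  have h2 : tm v (map (algebraMap R K)
      (∑ i, symb ![cs R (c i), l i] + ∑ j, symb ![cs R (d j), m j])) =
      ∑ x : Fin (p + 1) ⊕ Fin (q + 1),
        tm v (symb ![Units.map (φ : ℚ →* K) (Sum.elim c d x), Sum.elim L M x]) := by
    rw [Fintype.sum_sum_type, map_add, map_sum, map_sum, map_add, map_sum, map_sum]
    refine congrArg₂ (· + ·) (Finset.sum_congr rfl fun k _ => ?_)
      (Finset.sum_congr rfl fun k _ => ?_)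
    · rw [KillWAux.map_pair, hcst]
      rfl
    · rw [KillWAux.map_pair, hcst]
      rfl
  rw [h2] at h1
  have h3 := tm_sum v φ (fun t => hc1 t) Finset.univ (Sum.elim c d) (Sum.elim L M) h1
  rw [Fintype.prod_sum_type] at h3
  simp only [Sum.elim_inl, Sum.elim_inr] at h3
  have o1 : P4a177b.ordv v (L i) = ((q + 1 : ℕ) : ℤ) := by
    refine ordv_of v _ ?_
    rw [hL]
    show v (algebraMap R K (l i : R)) = _
    rw [hvd, hl, D.v_x_sub]
  have o2 : ∀ k, k ≠ i → P4a177b.ordv v (L k) = 0 := by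
    intro k hk
    refine ordv_one v _ ?_
    rw [hL]
    show v (algebraMap R K (l k : R)) = _
    rw [hvd, hl, D.v_x_sub_ne (Nat.succ_pos q) (a k) (fun he => hk (hP.inj he))]
  have o3 : ∀ j, P4a177b.ordv v (M j) = -1 := by
    intro j
    refine ordv_of v _ ?_
    rw [hM]
    show v (algebraMap R K (m j : R)) = _
    rw [hvd, hm, D.v_y_sub, neg_neg]
  have e1 : ∏ k, c k ^ P4a177b.ordv v (L k) = c i ^ (q + 1) := by
    rw [Finset.prod_eq_single i (fun k _ hk => by rw [o2 k hk, zpow_zero])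
      (fun hi => absurd (Finset.mem_univ i) hi), o1, zpow_natCast]
  have e2 : ∏ j, d j ^ P4a177b.ordv v (M j) = (∏ j, d j)⁻¹ := by
    rw [← Finset.prod_inv_distrib]
    refine Finset.prod_congr rfl fun j _ => ?_
    rw [o3, zpow_neg_one]
  rw [e1, e2] at h3
  exact eq_of_mul_inv h3

namespace KillWAux

theorem abs_unit {A B : ℚˣ} (h : A = B ∨ A = -B) : |(A : ℚ)| = |(B : ℚ)| := by
  rcases h with h | h
  · rw [h]
  · rw [h, Units.val_neg, abs_neg]

theorem unit_abs {A B : ℚˣ} (h : |(A : ℚ)| = |(B : ℚ)|) : A = B ∨ A = -B := by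
  rcases abs_eq_abs.1 h with h | h
  · left
    exact Units.ext h
  · right
    exact Units.ext (by rw [h, Units.val_neg])

end KillWAux

theorem kill (h : Cur R x y P Q) (hP : Rt P a c₀) (hQ : Rt Q b e) (l : Fin (p + 1) → Rˣ)
    (hl : ∀ i, (l i : R) = x - algebraMap ℚ R (a i)) (m : Fin (q + 1) → Rˣ)
    (hm : ∀ j, (m j : R) = y - algebraMap ℚ R (b j)) (K : Type) [Field K] [Algebra R K]
    [IsFractionRing R K] (c : Fin (p + 1) → ℚˣ) (d : Fin (q + 1) → ℚˣ)
    (hv : ∀ v : Valuation K (WithZero (Multiplicative ℤ)),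
      (∀ t : ℚˣ, v (algebraMap R K (algebraMap ℚ R t)) = 1) →
      IsOfFinAddOrder (tm v (map (algebraMap R K)
        (∑ i, symb ![cs R (c i), l i] + ∑ j, symb ![cs R (d j), m j])))) :
    ∃ t : ℚˣ, (∀ i, c i = t ∨ c i = -t) ∧ ∀ j, d j = t ∨ d j = -t := by
  classical
  have hA := kill_A h hP hQ l hl m hm K c d hv
  have hB := kill_A h.symm hQ hP m hm l hl K d c (fun v hc => by
    rw [add_comm]
    exact hv v hc)
  -- absolute values
  have hA' : ∀ i, |(c i : ℚ)| ^ (q + 1) = ∏ j, |(d j : ℚ)| := by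
    intro i
    have h1 := abs_unit (hA i)
    rw [Units.val_pow_eq_pow_val, abs_pow, Units.coe_prod, Finset.abs_prod] at h1
    exact h1
  have hB' : ∀ j, |(d j : ℚ)| ^ (p + 1) = ∏ i, |(c i : ℚ)| := by
    intro j
    have h1 := abs_unit (hB j)
    rw [Units.val_pow_eq_pow_val, abs_pow, Units.coe_prod, Finset.abs_prod] at h1
    exact h1
  have hc : ∀ i, |(c i : ℚ)| = |(c 0 : ℚ)| := fun i =>
    (pow_left_inj₀ (abs_nonneg _) (abs_nonneg _) (Nat.succ_ne_zero q)).1
      ((hA' i).trans (hA' 0).symm)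
  have hd : ∀ j, |(d j : ℚ)| = |(d 0 : ℚ)| := fun j =>
    (pow_left_inj₀ (abs_nonneg _) (abs_nonneg _) (Nat.succ_ne_zero p)).1
      ((hB' j).trans (hB' 0).symm)
  have hcd : |(d 0 : ℚ)| = |(c 0 : ℚ)| := by
    have h1 := hA' 0
    rw [Finset.prod_congr rfl fun j _ => hd j, Finset.prod_const, Finset.card_univ,
      Fintype.card_fin] at h1
    exact ((pow_left_inj₀ (abs_nonneg _) (abs_nonneg _) (Nat.succ_ne_zero q)).1 h1).symm
  exact ⟨c 0, fun i => unit_abs (hc i), fun j => unit_abs ((hd j).trans hcd)⟩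

end P4a177w
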