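import Pool.Agent.Lib.P4a177w.CuspW
import Pool.Agent.Lib.P4a177w.RegW
import Pool.Agent.Lib.P4a177w.InfW

/-!
# MODULE P4a177w.UnitW: the units of the coordinate ring

PROOFS. `const_of_regular`: `regular` gives `r = ∑ G_k(x) y ^ k` with `P ∣ G k` for `k ≠ 0`; `infinity` gives `G k = C t_k`; as `P` has
degree `p + 1 ≥ 1` (`hP.eq`, `hP.c_ne`), `G k = 0` for `k ≠ 0`; so `r = t_0`. `unit_pow`: choose cusps
`D i : Cusp R x y (a i) (q + 1)` (`exists_cusp h hP hQ i`) and `E j : Cusp R y x (b j) (p + 1)` (`exists_cusp h.symm hQ hP j`).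
For a unit `u` let `n i : ℤ` be its order at `D i`: `vL ((D i).φ u) = exp (-(n i))` (`WithZero.exp_log`; the value is not `0`
as `(D i).φ u` is a unit), `n' j` its order at `E j`. Orders: at `D i`: `l i` has order `q + 1`, `l k` (`k ≠ i`) order `0`,
every `m j` order `-1`, constants order `0`; at `E j`: `m j` has order `p + 1`, `m k` (`k ≠ j`) order `0`, every `l i`
order `-1` (module OrdW). Let `A = ∑ n i`, `B = ∑ n' j`, `S = A + B`, and
`w = u ^ ((p + 1) (q + 1)) * ∏ l i ^ (-(p + 1) n i) * ∏ m j ^ (-A - (q + 1) n' j)`. Order of `w` at `D i`: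
`(p + 1) (q + 1) n i - (q + 1) (p + 1) n i + ∑_j (A + (q + 1) n' j) = (q + 1) S`; at `E j`:
`(p + 1) (q + 1) n' j + (p + 1) (-A - (q + 1) n' j) + ∑_i (p + 1) n i = 0`. If `S ≥ 0` then `w` has no poles at the cusps,
so it is a constant `t ≠ 0` (a unit) by `const_of_regular`, and `u ^ (..) = t ∏ l i ^ ((p + 1) n i) ∏ m j ^ (A + (q + 1) n' j)`. If
`S < 0` do the same with `w⁻¹` (also a unit). It is convenient to define `ord_D : Rˣ →* Multiplicative ℤ` or
`Additive Rˣ →+ ℤ`, `u ↦ -log (vL (D.φ u))` (`WithZero.log`, `log_mul`).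
-/

set_option autoImplicit false

namespace P4a177w

open Polynomial P4a177h P4a177u WithZero

variable {R : Type} [CommRing R] [Algebra ℚ R] {x y : R} {P Q : ℚ[X]} {p q : ℕ}
  {a : Fin (p + 1) → ℚ} {b : Fin (q + 1) → ℚ} {c e : ℚ}

theorem const_of_regular (h : Cur R x y P Q) (hP : Rt P a c) (hQ : Rt Q b e)
    (D : ∀ i, Cusp R x y (a i) (q + 1)) (E : ∀ j, Cusp R y x (b j) (p + 1)) (r : R)
    (hD : ∀ i, vL ((D i).φ r) ≤ 1) (hE : ∀ j, vL ((E j).φ r) ≤ 1) :
    ∃ t : ℚ, r = algebraMap ℚ R t := by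
  obtain ⟨G, hG, hdvd⟩ := regular h hP hQ D r hD
  have hinf := infinity hQ.inj (Nat.succ_pos p) E G (fun j => by rw [← hG]; exact hE j)
  have h0 : ∀ k, k ≠ 0 → G k = 0 := by
    intro k hk
    obtain ⟨t, ht⟩ := hinf k
    obtain ⟨T, hT⟩ := hdvd k hk
    have h1 : P.eval (a 0) = 0 := by
      rw [hP.eq, eval_mul, eval_prod, Finset.prod_eq_zero (Finset.mem_univ 0), mul_zero]
      simp
    have h2 : (G k).eval (a 0) = 0 := by rw [hT, eval_mul, h1, zero_mul]
    rw [ht, eval_C] at h2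
    rw [ht, h2, C_0]
  obtain ⟨t, ht⟩ := hinf 0
  refine ⟨t, ?_⟩
  rw [hG, Finset.sum_eq_single 0]
  · rw [ht, aeval_C, Fin.val_zero, pow_zero, mul_one]
  · intro k _ hk
    rw [h0 k hk, map_zero, zero_mul]
  · intro h1
    exact absurd (Finset.mem_univ 0) h1

namespace UnitWAux

/-- the logarithm of the value of a unit -/
noncomputable def lg (φ : R →+* LaurentSeries ℚ) : Rˣ →* Multiplicative ℤ :=
  (WithZero.unitsWithZeroEquiv (α := Multiplicative ℤ)).toMonoidHom.comp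
    ((Units.map ((vL : Valuation (LaurentSeries ℚ) (WithZero (Multiplicative ℤ))) :
      LaurentSeries ℚ →* WithZero (Multiplicative ℤ))).comp
        (Units.map (φ : R →* LaurentSeries ℚ)))

theorem v_eq (φ : R →+* LaurentSeries ℚ) (u : Rˣ) :
    vL (φ u) = exp (Multiplicative.toAdd (lg φ u)) := by
  have h1 : ((lg φ u : Multiplicative ℤ) : WithZero (Multiplicative ℤ)) = vL (φ u) := by
    simp [lg]
  rw [← h1]
  rfl

theorem lg_eq {φ : R →+* LaurentSeries ℚ} {u : Rˣ} {n : ℤ} (h : vL (φ u) = exp n) :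
    Multiplicative.toAdd (lg φ u) = n := by
  rw [v_eq] at h
  exact exp_injective h

theorem lg_mul (φ : R →+* LaurentSeries ℚ) (u w : Rˣ) : Multiplicative.toAdd (lg φ (u * w)) =
    Multiplicative.toAdd (lg φ u) + Multiplicative.toAdd (lg φ w) := by
  rw [map_mul, toAdd_mul]

theorem lg_inv (φ : R →+* LaurentSeries ℚ) (u : Rˣ) : Multiplicative.toAdd (lg φ u⁻¹) =
    -Multiplicative.toAdd (lg φ u) := by
  rw [map_inv, toAdd_inv]

theorem lg_pow (φ : R →+* LaurentSeries ℚ) (u : Rˣ) (n : ℕ) :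
    Multiplicative.toAdd (lg φ (u ^ n)) = n * Multiplicative.toAdd (lg φ u) := by
  rw [map_pow, toAdd_pow, nsmul_eq_mul]

theorem lg_prod (φ : R →+* LaurentSeries ℚ) {n : ℕ} (f : Fin n → Rˣ) (κ : Fin n → ℤ) :
    Multiplicative.toAdd (lg φ (∏ k, f k ^ κ k)) = ∑ k, κ k * Multiplicative.toAdd (lg φ (f k)) := by
  rw [map_prod, toAdd_prod]
  apply Finset.sum_congr rfl
  intro k _
  rw [map_zpow, toAdd_zpow, smul_eq_mul]

end UnitWAux

open UnitWAux

theorem unit_pow (h : Cur R x y P Q) (hP : Rt P a c) (hQ : Rt Q b e) (l : Fin (p + 1) → Rˣ)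
    (hl : ∀ i, (l i : R) = x - algebraMap ℚ R (a i)) (m : Fin (q + 1) → Rˣ)
    (hm : ∀ j, (m j : R) = y - algebraMap ℚ R (b j)) (u : Rˣ) :
    ∃ (t : ℚˣ) (κ : Fin (p + 1) → ℤ) (κ' : Fin (q + 1) → ℤ),
      u ^ ((p + 1) * (q + 1)) = cs R t * (∏ i, l i ^ κ i) * ∏ j, m j ^ κ' j := by
  classical
  let D : ∀ i, Cusp R x y (a i) (q + 1) := fun i => (exists_cusp h hP hQ i).some
  let E : ∀ j, Cusp R y x (b j) (p + 1) := fun j => (exists_cusp h.symm hQ hP j).some
  -- the values of the units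
  have d1 : ∀ i, Multiplicative.toAdd (lg (D i).φ (l i)) = -((q + 1 : ℕ) : ℤ) := fun i =>
    lg_eq (by rw [hl i]; exact (D i).v_x_sub)
  have d2 : ∀ i k, k ≠ i → Multiplicative.toAdd (lg (D i).φ (l k)) = 0 := fun i k hk =>
    lg_eq (by
      rw [hl k, (D i).v_x_sub_ne (Nat.succ_pos q) (a k) (fun h1 => hk (hP.inj h1)), exp_zero])
  have d3 : ∀ i j, Multiplicative.toAdd (lg (D i).φ (m j)) = 1 := fun i j =>
    lg_eq (by rw [hm j]; exact (D i).v_y_sub (b j))
  have e1 : ∀ j, Multiplicative.toAdd (lg (E j).φ (m j)) = -((p + 1 : ℕ) : ℤ) := fun j =>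
    lg_eq (by rw [hm j]; exact (E j).v_x_sub)
  have e2 : ∀ j k, k ≠ j → Multiplicative.toAdd (lg (E j).φ (m k)) = 0 := fun j k hk =>
    lg_eq (by
      rw [hm k, (E j).v_x_sub_ne (Nat.succ_pos p) (b k) (fun h1 => hk (hQ.inj h1)), exp_zero])
  have e3 : ∀ j i, Multiplicative.toAdd (lg (E j).φ (l i)) = 1 := fun j i =>
    lg_eq (by rw [hl i]; exact (E j).v_y_sub (a i))
  let n : Fin (p + 1) → ℤ := fun i => -Multiplicative.toAdd (lg (D i).φ u)
  let n' : Fin (q + 1) → ℤ := fun j => -Multiplicative.toAdd (lg (E j).φ u)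
  let A : ℤ := ∑ i, n i
  let B : ℤ := ∑ j, n' j
  let κ : Fin (p + 1) → ℤ := fun i => ((p + 1 : ℕ) : ℤ) * n i
  let κ' : Fin (q + 1) → ℤ := fun j => A + ((q + 1 : ℕ) : ℤ) * n' j
  obtain ⟨w, hw⟩ : ∃ w : Rˣ, w = u ^ ((p + 1) * (q + 1)) * (∏ i, l i ^ κ i)⁻¹ *
    (∏ j, m j ^ κ' j)⁻¹ := ⟨_, rfl⟩
  have hu : u ^ ((p + 1) * (q + 1)) = w * (∏ i, l i ^ κ i) * ∏ j, m j ^ κ' j := by
    rw [hw, mul_right_comm _ _ (∏ i, l i ^ κ i), inv_mul_cancel_right, inv_mul_cancel_right]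
  have hDw : ∀ i, Multiplicative.toAdd (lg (D i).φ w) = -(((q + 1 : ℕ) : ℤ) * (A + B)) := by
    intro i
    rw [hw, lg_mul, lg_mul, lg_inv, lg_inv, lg_pow, lg_prod, lg_prod]
    have s1 : ∑ k, κ k * Multiplicative.toAdd (lg (D i).φ (l k)) =
        κ i * -((q + 1 : ℕ) : ℤ) := by
      rw [Finset.sum_eq_single i, d1 i]
      · intro k _ hk
        rw [d2 i k hk, mul_zero]
      · intro h1
        exact absurd (Finset.mem_univ i) h1
    have s2 : ∑ j, κ' j * Multiplicative.toAdd (lg (D i).φ (m j)) =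
        ((q + 1 : ℕ) : ℤ) * (A + B) := by
      have : ∀ j, κ' j * Multiplicative.toAdd (lg (D i).φ (m j)) =
          A + ((q + 1 : ℕ) : ℤ) * n' j := fun j => by rw [d3 i j, mul_one]
      rw [Finset.sum_congr rfl fun j _ => this j, Finset.sum_add_distrib, ← Finset.mul_sum,
        Finset.sum_const, Finset.card_univ, Fintype.card_fin, nsmul_eq_mul, ← mul_add]
    rw [s1, s2]
    show _ * Multiplicative.toAdd (lg (D i).φ u) + -((((p + 1 : ℕ) : ℤ) *
      -Multiplicative.toAdd (lg (D i).φ u)) * -((q + 1 : ℕ) : ℤ)) + _ = _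
    push_cast
    ring
  have hEw : ∀ j, Multiplicative.toAdd (lg (E j).φ w) = 0 := by
    intro j
    rw [hw, lg_mul, lg_mul, lg_inv, lg_inv, lg_pow, lg_prod, lg_prod]
    have s1 : ∑ k, κ' k * Multiplicative.toAdd (lg (E j).φ (m k)) =
        κ' j * -((p + 1 : ℕ) : ℤ) := by
      rw [Finset.sum_eq_single j, e1 j]
      · intro k _ hk
        rw [e2 j k hk, mul_zero]
      · intro h1
        exact absurd (Finset.mem_univ j) h1
    have s2 : ∑ i, κ i * Multiplicative.toAdd (lg (E j).φ (l i)) = ((p + 1 : ℕ) : ℤ) * A := by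
      have : ∀ i, κ i * Multiplicative.toAdd (lg (E j).φ (l i)) =
          ((p + 1 : ℕ) : ℤ) * n i := fun i => by rw [e3 j i, mul_one]
      rw [Finset.sum_congr rfl fun i _ => this i, ← Finset.mul_sum]
    rw [s1, s2]
    show _ * Multiplicative.toAdd (lg (E j).φ u) + _ + -((A + ((q + 1 : ℕ) : ℤ) *
      -Multiplicative.toAdd (lg (E j).φ u)) * -((p + 1 : ℕ) : ℤ)) = 0
    push_cast
    ring
  -- a unit without poles is a constant
  have hne : ∀ (w : Rˣ) (t : ℚ), (w : R) = algebraMap ℚ R t → t ≠ 0 := by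
    rintro w t hwt rfl
    have h1 := v_eq (D 0).φ w
    rw [hwt, map_zero, map_zero, map_zero] at h1
    exact exp_ne_zero h1.symm
  have hconst : ∀ w : Rˣ, (∀ i, Multiplicative.toAdd (lg (D i).φ w) ≤ 0) →
      (∀ j, Multiplicative.toAdd (lg (E j).φ w) ≤ 0) → ∃ t : ℚˣ, w = cs R t := by
    intro w h1 h2
    obtain ⟨t, ht⟩ := const_of_regular h hP hQ D E (w : R)
      (fun i => by rw [v_eq, ← exp_zero, exp_le_exp]; exact h1 i)
      (fun j => by rw [v_eq, ← exp_zero, exp_le_exp]; exact h2 j)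
    refine ⟨Units.mk0 t (hne w t ht), Units.ext ?_⟩
    rw [ht]
    rfl
  rcases le_or_gt 0 (A + B) with hS | hS
  · obtain ⟨t, ht⟩ := hconst w
      (fun i => by
        rw [hDw i]
        have : (0 : ℤ) ≤ ((q + 1 : ℕ) : ℤ) * (A + B) := mul_nonneg (Int.natCast_nonneg _) hS
        linarith)
      (fun j => (hEw j).le)
    exact ⟨t, κ, κ', by rw [hu, ht]⟩
  · obtain ⟨t, ht⟩ := hconst w⁻¹
      (fun i => by
        rw [lg_inv, hDw i]
        have : ((q + 1 : ℕ) : ℤ) * (A + B) ≤ 0 :=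
          mul_nonpos_of_nonneg_of_nonpos (Int.natCast_nonneg _) hS.le
        linarith)
      (fun j => by rw [lg_inv, hEw j, neg_zero])
    refine ⟨t⁻¹, κ, κ', ?_⟩
    rw [hu, map_inv, ← ht, inv_inv]

end P4a177w
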