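import Pool.Agent.Lib.P4a177u.RatZ
import Pool.Agent.Lib.P4a177u.Quo
import Pool.Agent.Lib.P4a177w.UnitW
import Pool.Agent.Lib.P4a177w.AlgW
import Pool.Agent.Lib.P4a177w.KillW
import Pool.Agent.Lib.P4a177w.FamW
import Pool.Agent.Lib.P4a177e.AdmE

/-!
# The unramified elements of `K_2` of the coordinate ring of the curves
`N * ∏ (x - a_i) * ∏ (y - b_j) = 1` are combinations of the `ξ_p`, up to torsion
-/

set_option autoImplicit false

namespace P4a177w

open P4a177h P4a177u P4a177e

section General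

variable {R : Type} [CommRing R] [Algebra ℚ R]

/-- A symbol on a `ℚ`-algebra restricts to a symbol of `ℚ`. -/
noncomputable def restr {G : Type*} [AddCommGroup G] (S : Sy R G) : Sy ℚ G where
  B c d := S.B (cs R c) (cs R d)
  mul_left a c d := by rw [map_mul, S.mul_left]
  mul_right a c d := by rw [map_mul, S.mul_right]
  neg a := by
    have h : cs R (-a) = -cs R a := by
      apply Units.ext
      simp [cs]
    rw [h, S.neg]
  st a c h := by
    apply S.st
    show algebraMap ℚ R (a : ℚ) + algebraMap ℚ R (c : ℚ) = 1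
    rw [← map_add, h, map_one]
  tf := S.tf

theorem const_zero {G : Type*} [AddCommGroup G] (S : Sy R G) (c d : ℚˣ) :
    S.B (cs R c) (cs R d) = 0 := rat_zero (restr S) c d

variable {p q : ℕ} {l : Fin (p + 1) → Rˣ} {m : Fin (q + 1) → Rˣ}

theorem good_all (k : ℕ) (hk : ∀ u v : Rˣ, Good l m (uni R) (k • (uni R).B u v))
    (η : MilnorK 2 R) : Good l m (uni R) (k • QuotientAddGroup.mk η) := by
  induction η using QuotientAddGroup.induction_on with
  | H z =>
    induction z using FreeAbelianGroup.induction_on with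
    | zero =>
      have : (QuotientAddGroup.mk (QuotientAddGroup.mk (0 : FreeAbelianGroup (Fin 2 → Rˣ)) :
        MilnorK 2 R) : MilnorK 2 R ⧸ Tor R) = 0 := rfl
      rw [this, smul_zero]
      exact good_zero
    | of a =>
      have h := hk (a 0) (a 1)
      rw [uni_B] at h
      have ha : ![a 0, a 1] = a := by
        funext i
        fin_cases i <;> rfl
      rw [ha] at h
      exact h
    | neg a ih =>
      have h := good_neg ih
      have e : ∀ x : MilnorK 2 R ⧸ Tor R, k • (-x) = -(k • x) := fun x => neg_nsmul x _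
      rw [← e] at h
      exact h
    | add x y hx hy =>
      have h := good_add hx hy
      have e : ∀ x y : MilnorK 2 R ⧸ Tor R, k • (x + y) = k • x + k • y :=
        fun x y => nsmul_add x y _
      rw [← e] at h
      exact h

theorem isOfFinAddOrder_sum {A ι : Type*} [AddCommGroup A] (s : Finset ι) (f : ι → A)
    (h : ∀ i ∈ s, IsOfFinAddOrder (f i)) : IsOfFinAddOrder (∑ i ∈ s, f i) := by
  have : ∑ i ∈ s, f i ∈ AddCommGroup.torsion A := sum_mem fun i hi => h i hi
  exact this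

/-- The general statement for the curves `P(x) Q(y) = 1`. -/
theorem spans_aux {x y : R} {P Q : Polynomial ℚ} {a : Fin (p + 1) → ℚ} {b : Fin (q + 1) → ℚ}
    {c₀ e : ℚ} (h : Cur R x y P Q) (hP : Rt P a c₀) (hQ : Rt Q b e)
    (hl : ∀ i, (l i : R) = x - algebraMap ℚ R (a i))
    (hm : ∀ j, (m j : R) = y - algebraMap ℚ R (b j)) (t₀ : ℚˣ)
    (h0 : cs R t₀ * (∏ i, l i) * ∏ j, m j = 1) (η : MilnorK 2 R) (hη : UnramifiedOverQ η)
    (hξ : ∀ i j, UnramifiedOverQ
      (symb ![-(l (Fin.succ i) / l 0), -(m (Fin.succ j) / m 0)] : MilnorK 2 R)) :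
    ∃ n : Fin p → Fin q → ℤ, (((p + 1) * (q + 1)) ^ 3) • η -
      ∑ i, ∑ j, n i j • symb ![-(l i.succ / l 0), -(m j.succ / m 0)] ∈ Tor R := by
  obtain ⟨D⟩ := exists_cusp h hP hQ 0
  have hdom := isDomain h hQ D
  obtain ⟨n, c, d, h1⟩ := good_all (l := l) (m := m) (((p + 1) * (q + 1)) ^ 3)
    (fun u v => good_pair hP.inj hQ.inj hl hm t₀ h0 (const_zero _) u v
      (unit_pow h hP hQ l hl m hm u) (unit_pow h hP hQ l hl m hm v)) η
  set T := Tor R
  set ξ : Fin p → Fin q → MilnorK 2 R := fun i j =>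
    symb ![-(l (Fin.succ i) / l 0), -(m (Fin.succ j) / m 0)] with hξd
  set ζ : MilnorK 2 R := ∑ i, symb ![cs R (c i), l i] + ∑ j, symb ![cs R (d j), m j] with hζ
  have h2 : (((p + 1) * (q + 1)) ^ 3) • η - ∑ i, ∑ j, n i j • ξ i j - ζ ∈ T := by
    rw [← QuotientAddGroup.eq_zero_iff]
    have e : (QuotientAddGroup.mk' T)
        ((((p + 1) * (q + 1)) ^ 3) • η - ∑ i, ∑ j, n i j • ξ i j - ζ) = 0 := by
      rw [map_sub, map_sub, map_nsmul, map_sum, hζ, map_add, map_sum, map_sum]
      simp only [map_sum, map_zsmul]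
      have h' : (((p + 1) * (q + 1)) ^ 3) • (QuotientAddGroup.mk' T) η =
        ∑ i, ∑ j, n i j • (QuotientAddGroup.mk' T) (ξ i j) +
        ∑ i, (QuotientAddGroup.mk' T) (symb ![cs R (c i), l i]) +
        ∑ j, (QuotientAddGroup.mk' T) (symb ![cs R (d j), m j]) := h1
      rw [h']
      abel
    exact e
  obtain ⟨t, ht1, ht2⟩ := kill h hP hQ l hl m hm (FractionRing R) c d fun v hv => by
    set φ := algebraMap R (FractionRing R)
    have e : ζ = (((p + 1) * (q + 1)) ^ 3) • η - ∑ i, ∑ j, n i j • ξ i j -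
        ((((p + 1) * (q + 1)) ^ 3) • η - ∑ i, ∑ j, n i j • ξ i j - ζ) := by abel
    rw [← hζ, e]
    have f1 : IsOfFinAddOrder (tm v (map φ ((((p + 1) * (q + 1)) ^ 3) • η))) := by
      rw [map_nsmul, map_nsmul]
      exact (tm_unram v (hη (FractionRing R) v hv)).nsmul
    have f2 : IsOfFinAddOrder (tm v (map φ (∑ i, ∑ j, n i j • ξ i j))) := by
      rw [map_sum, map_sum]
      refine isOfFinAddOrder_sum _ _ fun i _ => ?_
      rw [map_sum, map_sum]
      refine isOfFinAddOrder_sum _ _ fun j _ => ?_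
      rw [map_zsmul, map_zsmul]
      exact (tm_unram v (hξ i j (FractionRing R) v hv)).zsmul
    have f3 : IsOfFinAddOrder (tm v (map φ
        ((((p + 1) * (q + 1)) ^ 3) • η - ∑ i, ∑ j, n i j • ξ i j - ζ))) := by
      obtain ⟨k, hk, hk'⟩ := map_tor φ h2
      rw [isOfFinAddOrder_iff_nsmul_eq_zero]
      exact ⟨k, hk, by rw [← map_nsmul, hk', map_zero]⟩
    rw [map_sub (map φ), map_sub (map φ), map_sub (tm v), map_sub (tm v)]
    change _ ∈ AddCommGroup.torsion _
    exact sub_mem (sub_mem f1 f2) f3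
  refine ⟨n, ?_⟩
  -- the element `ζ` is a torsion element
  have h3 : ζ ∈ T := by
    rw [← QuotientAddGroup.eq_zero_iff]
    have e : (QuotientAddGroup.mk' T) ζ = ∑ i, (uni R).B (cs R (c i)) (l i) +
        ∑ j, (uni R).B (cs R (d j)) (m j) := by
      rw [hζ, map_add, map_sum, map_sum]
      rfl
    have hs : ∀ (s : ℚˣ) (u : Rˣ), s = t ∨ s = -t →
        (uni R).B (cs R s) u = (uni R).B (cs R t) u := by
      intro s u hs
      rcases hs with rfl | rfl
      · rfl
      · have h : cs R (-t) = -cs R t := by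
          apply Units.ext
          simp [cs]
        rw [h, Sy.neg_left]
    have e2 : (QuotientAddGroup.mk' T) ζ = 0 := by
      rw [e, Finset.sum_congr rfl fun i _ => hs (c i) (l i) (ht1 i),
        Finset.sum_congr rfl fun j _ => hs (d j) (m j) (ht2 j), ← Sy.prod_right, ← Sy.prod_right,
        ← Sy.mul_right]
      have h4 : (∏ i, l i) * ∏ j, m j = (cs R t₀)⁻¹ := by
        rw [eq_inv_iff_mul_eq_one, mul_comm, ← mul_assoc, h0]
      rw [h4, Sy.inv_right, const_zero, neg_zero]
    exact e2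
  have e : (((p + 1) * (q + 1)) ^ 3) • η - ∑ i, ∑ j, n i j • ξ i j =
      ((((p + 1) * (q + 1)) ^ 3) • η - ∑ i, ∑ j, n i j • ξ i j - ζ) + ζ := by abel
  rw [e]
  exact add_mem h2 h3

end General

/-- The index with the two components `i` and `j`. -/
def prW (A : Fam 0) (i : Fin (A.m 0)) (j : Fin (A.m 1)) : ∀ s, Fin (A.m s) :=
  Fin.cons i (Fin.cons j (fun k => k.elim0))

/-- The indices are the pairs. -/
def eqW (A : Fam 0) : (∀ s, Fin (A.m s)) ≃ Fin (A.m 0) × Fin (A.m 1) where
  toFun p := (p 0, p 1)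
  invFun ij := prW A ij.1 ij.2
  left_inv p := by
    funext s
    fin_cases s <;> rfl
  right_inv ij := rfl

theorem sum_W {M : Type*} [AddCommGroup M] (A : Fam 0) (n : Fin (A.m 0) → Fin (A.m 1) → ℤ)
    (f : (∀ s, Fin (A.m s)) → M) :
    ∑ p, n (p 0) (p 1) • f p = ∑ i, ∑ j, n i j • f (prW A i j) := by
  rw [← Fintype.sum_prod_type']
  exact Fintype.sum_equiv (eqW A) _ _ fun p => by
    have : prW A (p 0) (p 1) = p := (eqW A).left_inv p
    show n (p 0) (p 1) • f p = n (p 0) (p 1) • f (prW A (p 0) (p 1))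
    rw [this]

/-- The element `ξ_p` is unramified at the valuations that are trivial on `ℚ`. -/
theorem xi_over (A : Fam 0) (N : ℕ) (p : ∀ s, Fin (A.m s))
    (h : P4a177s.UnramifiedEverywhere (xi A N p)) : UnramifiedOverQ (xi A N p) :=
  fun K _ _ _ v _ => h K v

theorem spans (A : Fam 0) (N : ℕ) (hN : 1 ≤ N) (η : MilnorK 2 (A.CoordRing N))
    (hη : UnramifiedOverQ η) (hξ : ∀ p, P4a177s.UnramifiedEverywhere (xi A N p)) :
    ∃ c : (∀ s, Fin (A.m s)) → ℤ, (((A.m 0 + 1) * (A.m 1 + 1)) ^ 3) • η -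
      ∑ p, c p • xi A N p ∈ Tor (A.CoordRing N) := by
  have hN0 : (N : ℚ) ≠ 0 := by
    have : N ≠ 0 := by omega
    exact_mod_cast this
  have hx : ∀ i j, xi A N (prW A i j) =
      symb ![-(A.linU N 0 i.succ / A.linU N 0 0), -(A.linU N 1 j.succ / A.linU N 1 0)] := by
    intro i j
    unfold xi
    congr 1
    funext s
    fin_cases s <;> rfl
  obtain ⟨n, hn⟩ := spans_aux (cur A N) (rt0 A N hN) (rt1 A) (l := fun i => A.linU N 0 i)
    (m := fun j => A.linU N 1 j) (fun i => linU_val A N 0 i) (fun j => linU_val A N 1 j)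
    (Units.mk0 (N : ℚ) hN0) (eqn_units A N hN0) η hη (fun i j => by
      have := xi_over A N (prW A i j) (hξ _)
      rw [hx] at this
      exact this)
  refine ⟨fun p => n (p 0) (p 1), ?_⟩
  have e : ∑ p, n (p 0) (p 1) • xi A N p = ∑ i, ∑ j, n i j •
      symb ![-(A.linU N 0 i.succ / A.linU N 0 0), -(A.linU N 1 j.succ / A.linU N 1 0)] := by
    rw [sum_W A n (xi A N)]
    exact Finset.sum_congr rfl fun i _ => Finset.sum_congr rfl fun j _ => by rw [hx]
  rw [e]
  exact hn

/-- The unramified elements of `K_2` of the coordinate ring: after multiplication by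
`((m_0 + 1) (m_1 + 1)) ^ 3` their regulators are the regulators of an integral combination of the
`ξ_p`, and in `K_2` of the function field they are equal to this combination up to torsion. -/
theorem unramified_span (A : Fam 0) (N : ℕ) (hN : 1 ≤ N) (η : MilnorK 2 (A.CoordRing N))
    (hη : UnramifiedOverQ η) :
    ∃ c : (∀ s, Fin (A.m s)) → ℤ,
      (∀ γ : Torus 1 (A.CoordRing N), ((((A.m 0 + 1) * (A.m 1 + 1)) ^ 3 : ℕ) : ℝ) * reg γ η =
        ∑ p, (c p : ℝ) * reg γ (xi A N p)) ∧
      ∀ (K : Type) [Field K] [Algebra (A.CoordRing N) K] [IsFractionRing (A.CoordRing N) K],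
        ∃ k : ℕ, 0 < k ∧ k • ((((A.m 0 + 1) * (A.m 1 + 1)) ^ 3) •
          map (algebraMap (A.CoordRing N) K) η -
          ∑ p, c p • map (algebraMap (A.CoordRing N) K) (xi A N p)) = 0 := by
  obtain ⟨c, hc⟩ := spans A N hN η hη fun p => unramified_xi A N p
  refine ⟨c, fun γ => ?_, fun K _ _ _ => ?_⟩
  · have h := reg_tor γ hc
    rw [map_sub, map_nsmul, map_sum, sub_eq_zero, nsmul_eq_mul] at h
    simp only [map_zsmul, zsmul_eq_mul] at h
    exact h
  · obtain ⟨k, hk, h⟩ := map_tor (algebraMap (A.CoordRing N) K) hc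
    refine ⟨k, hk, ?_⟩
    rw [map_sub, map_nsmul, map_sum] at h
    simp only [map_zsmul] at h
    exact h

end P4a177w
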