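import Pool.Agent.Lib.P4a177w.Defs

/-!
# Normal form of the functions on the curve `P(x) Q(y) = 1`

PROOF. Let `S` be the set of the `r : R` of the stated form. It is closed under addition (bring to the same power of
`aeval x P`: multiply the `G k` by powers of `P`), under multiplication by constants, and contains `1` (`M = 0`).
Closed under multiplication by `x`: `G k * X`. Closed under multiplication by `y`: `r y P(x) ^ M = ∑_k G_k(x) y ^ (k + 1)`,
only the last term `G_q(x) y ^ (q + 1)` has to be rewritten with the equation of the curve, after multiplication by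
one more `P(x)`. Then the set of the `s : R` with `∀ r ∈ S, s * r ∈ S` is a subalgebra that contains `x` and `y`, so
by `h.gen` it is everything; apply it to `1 ∈ S`.
-/

set_option autoImplicit false

namespace P4a177w

open Polynomial P4a177h P4a177u

variable {R : Type} [CommRing R] [Algebra ℚ R] {x y : R} {P Q : ℚ[X]} {q : ℕ}
  {b : Fin (q + 1) → ℚ} {e : ℚ}

/-- `r` is a combination of the `y ^ k`, `k ≤ q`, with coefficients polynomials in `x`. -/
private def NF (x y : R) (q : ℕ) (r : R) : Prop :=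
  ∃ G : Fin (q + 1) → ℚ[X], r = ∑ k, aeval x (G k) * y ^ (k : ℕ)

private theorem NF.add {r s : R} (h1 : NF x y q r) (h2 : NF x y q s) : NF x y q (r + s) := by
  obtain ⟨G, rfl⟩ := h1
  obtain ⟨H, rfl⟩ := h2
  refine ⟨fun k => G k + H k, ?_⟩
  rw [← Finset.sum_add_distrib]
  refine Finset.sum_congr rfl fun k _ => ?_
  rw [map_add, add_mul]

private theorem NF.smul {r : R} (g : ℚ[X]) (h1 : NF x y q r) : NF x y q (aeval x g * r) := by
  obtain ⟨G, rfl⟩ := h1
  refine ⟨fun k => g * G k, ?_⟩
  rw [Finset.mul_sum]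
  refine Finset.sum_congr rfl fun k _ => ?_
  rw [map_mul, mul_assoc]

private theorem NF.ypow {k : ℕ} (hk : k ≤ q) : NF x y q (y ^ k) := by
  refine ⟨fun j => if j = ⟨k, Nat.lt_succ_of_le hk⟩ then 1 else 0, ?_⟩
  rw [Finset.sum_eq_single (⟨k, Nat.lt_succ_of_le hk⟩ : Fin (q + 1))]
  · simp only [if_true, map_one, one_mul]
  · intro j _ hj
    simp only [if_neg hj, map_zero, zero_mul]
  · intro h
    exact absurd (Finset.mem_univ _) h

private theorem NF.zero : NF x y q (0 : R) := by
  have h := NF.smul (q := q) (y := y) (0 : ℚ[X]) (NF.ypow (x := x) (Nat.zero_le q))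
  rwa [map_zero, zero_mul] at h

private theorem NF.sum {ι : Type*} (s : Finset ι) (f : ι → R) (h : ∀ i ∈ s, NF x y q (f i)) :
    NF x y q (∑ i ∈ s, f i) := by
  classical
  induction s using Finset.induction_on with
  | empty => rw [Finset.sum_empty]; exact NF.zero
  | insert a s ha ih =>
    rw [Finset.sum_insert ha]
    exact (h a (Finset.mem_insert_self a s)).add (ih fun i hi => h i (Finset.mem_insert_of_mem hi))

private theorem NF.top (h : Cur R x y P Q) (hQ : Rt Q b e) :
    NF x y q (aeval x P * y ^ (q + 1)) := by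
  have hm : (∏ i, (X - C (b i)) : ℚ[X]).Monic := monic_prod_of_monic _ _ fun i _ => monic_X_sub_C _
  have hd : (∏ i, (X - C (b i)) : ℚ[X]).natDegree = q + 1 := by
    rw [natDegree_prod_of_monic _ _ fun i _ => monic_X_sub_C _]
    simp
  have hQd : Q.natDegree < q + 1 + 1 := by
    rw [hQ.eq]
    refine lt_of_le_of_lt (natDegree_C_mul_le _ _) ?_
    rw [hd]
    exact Nat.lt_succ_self _
  have hQc : Q.coeff (q + 1) = e := by
    have h0 := hm.coeff_natDegree
    rw [hd] at h0
    rw [hQ.eq, coeff_C_mul, h0, mul_one]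
  have h1 := h.eqn
  rw [aeval_eq_sum_range' hQd, Finset.sum_range_succ, hQc, Algebra.smul_def] at h1
  have he : algebraMap ℚ R e⁻¹ * algebraMap ℚ R e = 1 := by
    rw [← map_mul, inv_mul_cancel₀ hQ.c_ne, map_one]
  have h2 : aeval x P * y ^ (q + 1) = aeval x (C e⁻¹) * (y ^ 0 +
      aeval x (-P) * ∑ j ∈ Finset.range (q + 1), aeval x (C (Q.coeff j)) * y ^ j) := by
    simp only [aeval_C, map_neg, Algebra.smul_def] at h1 ⊢
    rw [pow_zero, ← h1]
    linear_combination (-(aeval x P * y ^ (q + 1))) * he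
  rw [h2]
  refine NF.smul _ ((NF.ypow (Nat.zero_le q)).add (NF.smul _ ?_))
  exact NF.sum _ _ fun j hj => NF.smul _ (NF.ypow (Nat.le_of_lt_succ (Finset.mem_range.1 hj)))

private theorem NF.mul_y (h : Cur R x y P Q) (hQ : Rt Q b e) {r : R} (hr : NF x y q r) :
    NF x y q (y * r * aeval x P) := by
  obtain ⟨G, rfl⟩ := hr
  have h1 : y * (∑ k : Fin (q + 1), aeval x (G k) * y ^ (k : ℕ)) * aeval x P =
      ∑ k : Fin (q + 1), aeval x (G k) * (aeval x P * y ^ ((k : ℕ) + 1)) := by
    rw [Finset.mul_sum, Finset.sum_mul]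
    refine Finset.sum_congr rfl fun k _ => ?_
    rw [pow_succ]
    ring
  rw [h1]
  refine NF.sum _ _ fun k _ => NF.smul _ ?_
  rcases Nat.lt_or_ge (k : ℕ) q with hk | hk
  · exact NF.smul _ (NF.ypow hk)
  · have hk' : (k : ℕ) = q := le_antisymm (Nat.le_of_lt_succ k.2) hk
    rw [hk']
    exact NF.top h hQ

/-- The set of the elements of the stated form. -/
private def SF (x y : R) (P : ℚ[X]) (q : ℕ) (r : R) : Prop :=
  ∃ M : ℕ, NF x y q (r * aeval x P ^ M)

private theorem SF.add {r s : R} (h1 : SF x y P q r) (h2 : SF x y P q s) :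
    SF x y P q (r + s) := by
  obtain ⟨M, h1⟩ := h1
  obtain ⟨N, h2⟩ := h2
  refine ⟨M + N, ?_⟩
  have e1 : (r + s) * aeval x P ^ (M + N) =
      aeval x (P ^ N) * (r * aeval x P ^ M) + aeval x (P ^ M) * (s * aeval x P ^ N) := by
    rw [map_pow, map_pow, pow_add]
    ring
  rw [e1]
  exact (h1.smul _).add (h2.smul _)

private theorem SF.smul {r : R} (g : ℚ[X]) (h1 : SF x y P q r) :
    SF x y P q (aeval x g * r) := by
  obtain ⟨M, h1⟩ := h1
  refine ⟨M, ?_⟩
  rw [mul_assoc]
  exact h1.smul g

private theorem SF.mul_y (h : Cur R x y P Q) (hQ : Rt Q b e) {r : R} (hr : SF x y P q r) :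
    SF x y P q (y * r) := by
  obtain ⟨M, h1⟩ := hr
  refine ⟨M + 1, ?_⟩
  have h2 := h1.mul_y h hQ
  have e1 : y * r * aeval x P ^ (M + 1) = y * (r * aeval x P ^ M) * aeval x P := by
    rw [pow_succ]
    ring
  rw [e1]
  exact h2

theorem normal_form (h : Cur R x y P Q) (hQ : Rt Q b e) (r : R) :
    ∃ (M : ℕ) (G : Fin (q + 1) → ℚ[X]), r * aeval x P ^ M = ∑ k, aeval x (G k) * y ^ (k : ℕ) := by
  let A : Subalgebra ℚ R :=
    { carrier := {s | ∀ r, SF x y P q r → SF x y P q (s * r)}
      mul_mem' := fun {s t} hs ht r hr => by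
        rw [mul_assoc]
        exact hs _ (ht _ hr)
      add_mem' := fun {s t} hs ht r hr => by
        rw [add_mul]
        exact (hs _ hr).add (ht _ hr)
      algebraMap_mem' := fun c r hr => by
        have h1 := hr.smul (C c)
        rwa [aeval_C] at h1 }
  have hx : x ∈ A := fun r hr => by
    have h1 := hr.smul X
    rwa [aeval_X] at h1
  have hy : y ∈ A := fun r hr => hr.mul_y h hQ
  have h1 : SF x y P q (1 : R) := ⟨0, by
    rw [pow_zero, mul_one, ← pow_zero y]
    exact NF.ypow (Nat.zero_le q)⟩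
  have h2 := h.gen A hx hy r 1 h1
  rw [mul_one] at h2
  exact h2

end P4a177w
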