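import Pool.Agent.Lib.P4a177w.Defs

/-!
# MODULE P4a177w.OrdW: the valuation of the Laurent series, and the orders of functions at a cusp

PROOFS. `vL` is `Valued.v`, see `Mathlib/RingTheory/LaurentSeries.lean`: `LaurentSeries.val_le_one_iff_eq_coe`,
`LaurentSeries.valuation_single_zpow`, `LaurentSeries.valuation_def`. `vL_coe_unit`: the series is a unit of `ℚ[[z]]`, so both it
and its inverse have value `≤ 1`. `vL_coe_lt`: divisible by `z`, `PowerSeries.X_dvd_iff`. `vL_C`: nonzero constants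
(`HahnSeries.C t = ((PowerSeries.C t : PowerSeries ℚ) : LaurentSeries ℚ)`, `PowerSeries.coe_C`). For the cusp: a ring
homomorphism maps `algebraMap ℚ R t` to `HahnSeries.C t` (`RingHom.ext_rat`/`Subsingleton (ℚ →+* _)`, `DFunLike.congr_fun`);
`D.φ (x - t) = F - t = (a₀ - t) + z ^ n U`, with constant coefficient `a₀ - t` if `0 < n`; `D.φ (y - t) = z⁻¹ - t` has value
`exp 1` as `v t ≤ 1 < exp 1`. `v_aeval`: `aeval x G` with `G = (X - C a₀) ^ m * H`, `H.eval a₀ ≠ 0`: the image of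
`aeval x H` is the power series `H(F)` with constant coefficient `H(a₀)`.
-/

set_option autoImplicit false

namespace P4a177w

open Polynomial P4a177h P4a177u WithZero

theorem vL_coe_le (F : PowerSeries ℚ) : vL (F : LaurentSeries ℚ) ≤ 1 :=
  (LaurentSeries.val_le_one_iff_eq_coe ℚ _).mpr ⟨F, rfl⟩

theorem exists_coe (f : LaurentSeries ℚ) (h : vL f ≤ 1) : ∃ F : PowerSeries ℚ, f = F := by
  obtain ⟨F, hF⟩ := (LaurentSeries.val_le_one_iff_eq_coe ℚ f).mp h
  exact ⟨F, hF.symm⟩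

theorem vL_coe_unit (F : PowerSeries ℚ) (h : PowerSeries.constantCoeff F ≠ 0) :
    vL (F : LaurentSeries ℚ) = 1 := by
  have hu : IsUnit F := PowerSeries.isUnit_iff_constantCoeff.mpr (isUnit_iff_ne_zero.mpr h)
  obtain ⟨u, rfl⟩ := hu
  have h1 := vL_coe_le (u : PowerSeries ℚ)
  have h2 := vL_coe_le ((u⁻¹ : (PowerSeries ℚ)ˣ) : PowerSeries ℚ)
  have h3 : vL ((u : PowerSeries ℚ) : LaurentSeries ℚ) *
      vL (((u⁻¹ : (PowerSeries ℚ)ˣ) : PowerSeries ℚ) : LaurentSeries ℚ) = 1 := by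
    rw [← map_mul, ← PowerSeries.coe_mul, Units.mul_inv, PowerSeries.coe_one, map_one]
  refine le_antisymm h1 ?_
  calc (1 : WithZero (Multiplicative ℤ)) = _ := h3.symm
    _ ≤ vL ((u : PowerSeries ℚ) : LaurentSeries ℚ) * 1 := mul_le_mul_right h2 _
    _ = _ := mul_one _

theorem vL_z (n : ℤ) : vL (HahnSeries.single n (1 : ℚ)) = exp (-n) :=
  LaurentSeries.valuation_single_zpow ℚ n

theorem exp_neg_one_lt : (exp (-1 : ℤ) : WithZero (Multiplicative ℤ)) < 1 := by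
  rw [← exp_zero, exp_lt_exp]
  norm_num

theorem one_lt_exp_one : (1 : WithZero (Multiplicative ℤ)) < exp (1 : ℤ) := by
  rw [← exp_zero, exp_lt_exp]
  norm_num

theorem vL_coe_lt (F : PowerSeries ℚ) (h : PowerSeries.constantCoeff F = 0) :
    vL (F : LaurentSeries ℚ) < 1 := by
  obtain ⟨G, rfl⟩ := PowerSeries.X_dvd_iff.mpr h
  rw [PowerSeries.coe_mul, PowerSeries.coe_X, map_mul, vL_z]
  calc exp (-1 : ℤ) * vL (G : LaurentSeries ℚ) ≤ exp (-1 : ℤ) * 1 :=
        mul_le_mul_right (vL_coe_le G) _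
    _ = exp (-1 : ℤ) := mul_one _
    _ < 1 := exp_neg_one_lt

theorem vL_const (t : ℚ) (ht : t ≠ 0) : vL (HahnSeries.C t : LaurentSeries ℚ) = 1 := by
  rw [← PowerSeries.coe_C]
  refine vL_coe_unit _ ?_
  simpa using ht

theorem vL_single (n : ℤ) (t : ℚ) (ht : t ≠ 0) :
    vL (HahnSeries.single n t) = exp (-n) := by
  have h : (HahnSeries.single n t : LaurentSeries ℚ) =
      HahnSeries.C t * HahnSeries.single n (1 : ℚ) := by
    rw [HahnSeries.C_apply, HahnSeries.single_mul_single, zero_add, mul_one]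
  rw [h, map_mul, vL_const t ht, one_mul, vL_z]

variable {R : Type} [CommRing R] [Algebra ℚ R] {x y : R} {a₀ : ℚ} {n : ℕ}

theorem Cusp.φ_const (D : Cusp R x y a₀ n) (t : ℚ) :
    D.φ (algebraMap ℚ R t) = HahnSeries.C t := by
  have h : D.φ.comp (algebraMap ℚ R) = (HahnSeries.C : ℚ →+* LaurentSeries ℚ) :=
    Subsingleton.elim _ _
  exact DFunLike.congr_fun h t

theorem Cusp.v_const (D : Cusp R x y a₀ n) (t : ℚ) (ht : t ≠ 0) :
    vL (D.φ (algebraMap ℚ R t)) = 1 := by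
  rw [D.φ_const, vL_const t ht]

theorem Cusp.v_y (D : Cusp R x y a₀ n) : vL (D.φ y) = exp (1 : ℤ) := by
  rw [D.hy, vL_z, neg_neg]

theorem Cusp.v_y_sub (D : Cusp R x y a₀ n) (t : ℚ) :
    vL (D.φ (y - algebraMap ℚ R t)) = exp (1 : ℤ) := by
  rw [map_sub, Valuation.map_sub_eq_of_lt_left, D.v_y]
  rw [D.v_y, D.φ_const, ← PowerSeries.coe_C]
  exact lt_of_le_of_lt (vL_coe_le _) one_lt_exp_one

theorem Cusp.v_x_sub (D : Cusp R x y a₀ n) : vL (D.φ (x - algebraMap ℚ R a₀)) = exp (-(n : ℤ)) := by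
  have h : D.φ (x - algebraMap ℚ R a₀) =
      ((PowerSeries.X ^ n * D.U : PowerSeries ℚ) : LaurentSeries ℚ) := by
    rw [map_sub, D.hx, D.φ_const, ← PowerSeries.coe_C, ← PowerSeries.coe_sub]
    congr 1
    rw [D.hF]
    ring
  rw [h, PowerSeries.coe_mul, map_mul, vL_coe_unit _ D.hU, mul_one, PowerSeries.coe_pow, map_pow]
  have h2 : vL ((PowerSeries.X : PowerSeries ℚ) : LaurentSeries ℚ) = exp (-1 : ℤ) := by
    rw [PowerSeries.coe_X, vL_z]
  rw [h2, ← exp_nsmul, smul_neg, nsmul_one]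

theorem Cusp.v_x_sub_ne (D : Cusp R x y a₀ n) (hn : 0 < n) (t : ℚ) (ht : t ≠ a₀) :
    vL (D.φ (x - algebraMap ℚ R t)) = 1 := by
  have h : D.φ (x - algebraMap ℚ R t) =
      ((D.F - PowerSeries.C t : PowerSeries ℚ) : LaurentSeries ℚ) := by
    rw [map_sub, D.hx, D.φ_const, ← PowerSeries.coe_C, ← PowerSeries.coe_sub]
  rw [h]
  refine vL_coe_unit _ ?_
  rw [D.hF]
  simp only [map_sub, map_add, map_mul, map_pow, PowerSeries.constantCoeff_C,
    PowerSeries.constantCoeff_X, zero_pow hn.ne', zero_mul, add_zero]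
  exact sub_ne_zero.mpr (Ne.symm ht)

theorem Cusp.φ_aeval (D : Cusp R x y a₀ n) (H : ℚ[X]) :
    D.φ (aeval x H) = ((aeval D.F H : PowerSeries ℚ) : LaurentSeries ℚ) := by
  have h : D.φ.comp ((aeval x : ℚ[X] →ₐ[ℚ] R) : ℚ[X] →+* R) =
      (HahnSeries.ofPowerSeries ℤ ℚ).comp ((aeval D.F : ℚ[X] →ₐ[ℚ] PowerSeries ℚ) :
        ℚ[X] →+* PowerSeries ℚ) := by
    refine Polynomial.ringHom_ext' (Subsingleton.elim _ _) ?_
    simpa using D.hx
  exact DFunLike.congr_fun h H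

theorem Cusp.cc_aeval (D : Cusp R x y a₀ n) (hn : 0 < n) (H : ℚ[X]) :
    PowerSeries.constantCoeff (aeval D.F H : PowerSeries ℚ) = H.eval a₀ := by
  have h : (PowerSeries.constantCoeff : PowerSeries ℚ →+* ℚ).comp
      ((aeval D.F : ℚ[X] →ₐ[ℚ] PowerSeries ℚ) : ℚ[X] →+* PowerSeries ℚ) =
      (evalRingHom a₀ : ℚ[X] →+* ℚ) := by
    refine Polynomial.ringHom_ext' (Subsingleton.elim _ _) ?_
    simp only [RingHom.coe_comp, RingHom.coe_coe, Function.comp_apply, aeval_X, coe_evalRingHom,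
      eval_X]
    rw [D.hF]
    simp [zero_pow hn.ne']
  exact DFunLike.congr_fun h H

theorem Cusp.v_aeval (D : Cusp R x y a₀ n) (hn : 0 < n) (m : ℕ) (H : ℚ[X]) (hH : H.eval a₀ ≠ 0) :
    vL (D.φ (aeval x ((X - C a₀) ^ m * H))) = exp (-((n * m : ℕ) : ℤ)) := by
  have h1 : aeval x ((X - C a₀) ^ m * H) = (x - algebraMap ℚ R a₀) ^ m * aeval x H := by
    simp
  have h2 : vL (D.φ (aeval x H)) = 1 := by
    rw [D.φ_aeval]
    exact vL_coe_unit _ (by rw [D.cc_aeval hn]; exact hH)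
  rw [h1, map_mul, map_mul, h2, mul_one, map_pow, map_pow, D.v_x_sub, ← exp_nsmul]
  congr 1
  push_cast
  ring

end P4a177w
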